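import Pool.Agent.H14.KPoint.Cube

/-!
# The Bonami lemma and its consequence for first moments
-/

namespace Pool.Agent.H14.KPoint

open Finset

noncomputable section

variable {n : ℕ}

/-- The uniform average over the cube. -/
def avg (f : (Fin n → Bool) → ℝ) : ℝ := (∑ x, f x) / 2 ^ n

lemma avg_add (f g : (Fin n → Bool) → ℝ) : avg (fun x => f x + g x) = avg f + avg g := by
  simp [avg, Finset.sum_add_distrib, add_div]

lemma avg_mul_left (c : ℝ) (f : (Fin n → Bool) → ℝ) : avg (fun x => c * f x) = c * avg f := by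
  simp [avg, ← Finset.mul_sum, mul_div_assoc]

lemma avg_nonneg {f : (Fin n → Bool) → ℝ} (h : ∀ x, 0 ≤ f x) : 0 ≤ avg f :=
  div_nonneg (Finset.sum_nonneg fun x _ => h x) (by positivity)

lemma avg_cs (f g : (Fin n → Bool) → ℝ) :
    avg (fun x => f x * g x) ^ 2 ≤ avg (fun x => f x ^ 2) * avg (fun x => g x ^ 2) := by
  have h := Finset.sum_mul_sq_le_sq_mul_sq (Finset.univ : Finset (Fin n → Bool)) f g
  simp only [avg]
  rw [div_pow, div_mul_div_comm, ← sq]
  exact div_le_div_of_nonneg_right h (by positivity)

/-- A polynomial in the variables of `U`. -/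
def poly (U : Finset (Fin n)) (c : Finset (Fin n) → ℝ) (x : Fin n → Bool) : ℝ :=
  ∑ S ∈ U.powerset, c S * chi S x

/-- flip a coordinate -/
def flip (i : Fin n) (x : Fin n → Bool) : Fin n → Bool := Function.update x i (!(x i))

lemma flip_flip (i : Fin n) (x : Fin n → Bool) : flip i (flip i x) = x := by
  funext j
  by_cases h : j = i
  · subst h; simp [flip]
  · simp [flip, h]

lemma chi_flip (i : Fin n) (S : Finset (Fin n)) (h : i ∉ S) (x : Fin n → Bool) :
    chi S (flip i x) = chi S x := by
  refine Finset.prod_congr rfl fun j hj => ?_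
  have : j ≠ i := fun e => h (e ▸ hj)
  simp [flip, this]

lemma poly_flip (i : Fin n) (U : Finset (Fin n)) (h : i ∉ U) (c : Finset (Fin n) → ℝ)
    (x : Fin n → Bool) : poly U c (flip i x) = poly U c x := by
  refine Finset.sum_congr rfl fun S hS => ?_
  rw [chi_flip i S (fun hi => h (Finset.mem_powerset.1 hS hi))]

lemma avg_odd (i : Fin n) (g : (Fin n → Bool) → ℝ) (h : ∀ x, g (flip i x) = g x) :
    avg (fun x => sg (x i) * g x) = 0 := by
  have h1 : ∑ x : Fin n → Bool, sg (x i) * g x = ∑ x : Fin n → Bool, -(sg (x i) * g x) := by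
    refine Finset.sum_bij' (fun x _ => flip i x) (fun x _ => flip i x) (by simp) (by simp)
      (fun x _ => flip_flip i x) (fun x _ => flip_flip i x) ?_
    intro x _
    rw [h, flip, Function.update_self, sg_not]
    ring
  rw [Finset.sum_neg_distrib] at h1
  have : ∑ x : Fin n → Bool, sg (x i) * g x = 0 := by linarith
  rw [avg, this, zero_div]

lemma poly_insert (i : Fin n) (U : Finset (Fin n)) (h : i ∉ U) (c : Finset (Fin n) → ℝ)
    (x : Fin n → Bool) :
    poly (insert i U) c x = poly U c x + sg (x i) * poly U (fun S => c (insert i S)) x := by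
  rw [poly, Finset.sum_powerset_insert h, poly, poly, Finset.mul_sum]
  congr 1
  refine Finset.sum_congr rfl fun S hS => ?_
  have hi : i ∉ S := fun hi => h (Finset.mem_powerset.1 hS hi)
  rw [chi, Finset.prod_insert hi, chi]
  ring

/-- **Bonami's lemma.** -/
lemma bonami (U : Finset (Fin n)) : ∀ (K : ℕ) (c : Finset (Fin n) → ℝ),
    (∀ S ∈ U.powerset, K < S.card → c S = 0) →
    avg (fun x => poly U c x ^ 4) ≤ 9 ^ K * avg (fun x => poly U c x ^ 2) ^ 2 := by
  induction U using Finset.induction_on with
  | empty =>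
    intro K c _
    have h1 : ∀ x : Fin n → Bool, poly ∅ c x = c ∅ := by intro x; simp [poly]
    simp_rw [h1]
    have h2 : ∀ a : ℝ, avg (fun _ : Fin n → Bool => a) = a := by
      intro a
      simp [avg]
    rw [h2, h2]
    have : (1 : ℝ) ≤ 9 ^ K := one_le_pow₀ (by norm_num)
    nlinarith [sq_nonneg (c ∅ ^ 2)]
  | insert i U hi ih =>
    intro K c hc
    set a := poly U c with ha
    set b := poly U (fun S => c (insert i S)) with hb
    have hab : ∀ x, poly (insert i U) c x = a x + sg (x i) * b x := poly_insert i U hi c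
    have haf : ∀ x, a (flip i x) = a x := poly_flip i U hi _
    have hbf : ∀ x, b (flip i x) = b x := poly_flip i U hi _
    have hs : ∀ x : Fin n → Bool, sg (x i) ^ 2 = 1 := fun x => by rw [sq, sg_mul_self]
    have e2 : avg (fun x => poly (insert i U) c x ^ 2) =
        avg (fun x => a x ^ 2) + avg (fun x => b x ^ 2) := by
      have : (fun x => poly (insert i U) c x ^ 2) =
          fun x => (a x ^ 2 + b x ^ 2) + 2 * (sg (x i) * (a x * b x)) := by
        funext x
        rw [hab]
        have := hs x
        linear_combination (b x ^ 2) * this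
      rw [this, avg_add, avg_mul_left, avg_odd i _ (fun x => by rw [haf, hbf]), avg_add]
      ring
    have e4 : avg (fun x => poly (insert i U) c x ^ 4) =
        avg (fun x => a x ^ 4) + 6 * avg (fun x => a x ^ 2 * b x ^ 2) + avg (fun x => b x ^ 4) := by
      have : (fun x => poly (insert i U) c x ^ 4) =
          fun x => ((a x ^ 4 + 6 * (a x ^ 2 * b x ^ 2)) + b x ^ 4) +
            4 * (sg (x i) * (a x ^ 3 * b x + a x * b x ^ 3)) := by
        funext x
        rw [hab]
        have := hs x
        linear_combination (6 * a x ^ 2 * b x ^ 2 + 4 * sg (x i) * a x * b x ^ 3 +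
          b x ^ 4 * (sg (x i) ^ 2 + 1)) * this
      rw [this, avg_add, avg_mul_left, avg_odd i _ (fun x => by rw [haf, hbf]), avg_add, avg_add,
        avg_mul_left]
      ring
    have hA : avg (fun x => a x ^ 4) ≤ 9 ^ K * avg (fun x => a x ^ 2) ^ 2 := by
      refine ih K c fun S hS hK => hc S ?_ hK
      exact Finset.mem_powerset.2 ((Finset.mem_powerset.1 hS).trans (Finset.subset_insert _ _))
    have hcs : avg (fun x => a x ^ 2 * b x ^ 2) ^ 2 ≤
        avg (fun x => a x ^ 4) * avg (fun x => b x ^ 4) := by
      have := avg_cs (fun x => a x ^ 2) (fun x => b x ^ 2)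
      simpa only [← pow_mul] using this
    set A := avg (fun x => a x ^ 2)
    set B := avg (fun x => b x ^ 2)
    have hA0 : 0 ≤ A := avg_nonneg fun x => sq_nonneg _
    have hB0 : 0 ≤ B := avg_nonneg fun x => sq_nonneg _
    rw [e2, e4]
    rcases Nat.eq_zero_or_pos K with hK | hK
    · subst hK
      have hb0 : ∀ x, b x = 0 := by
        intro x
        rw [hb, poly]
        refine Finset.sum_eq_zero fun S hS => ?_
        rw [hc (insert i S), zero_mul]
        · exact Finset.mem_powerset.2 (Finset.insert_subset_insert i (Finset.mem_powerset.1 hS))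
        · exact Finset.card_pos.2 ⟨i, Finset.mem_insert_self _ _⟩
      have h1 : avg (fun x => b x ^ 4) = 0 := by simp [avg, hb0]
      have h2 : avg (fun x => a x ^ 2 * b x ^ 2) = 0 := by simp [avg, hb0]
      rw [h1, h2]
      simp only [pow_zero, one_mul, mul_zero, add_zero] at hA ⊢
      nlinarith
    · obtain ⟨k, rfl⟩ : ∃ k, K = k + 1 := ⟨K - 1, by omega⟩
      have hB : avg (fun x => b x ^ 4) ≤ 9 ^ k * B ^ 2 := by
        refine ih k _ fun S hS hk => hc _ ?_ ?_
        · exact Finset.mem_powerset.2 (Finset.insert_subset_insert i (Finset.mem_powerset.1 hS))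
        · rw [Finset.card_insert_of_notMem (fun h => hi (Finset.mem_powerset.1 hS h))]
          omega
      have h9 : (0 : ℝ) < 9 ^ k := by positivity
      have hm : avg (fun x => a x ^ 2 * b x ^ 2) ≤ 3 * 9 ^ k * (A * B) := by
        refine abs_le_of_sq_le_sq' ?_ (by positivity) |>.2
        refine hcs.trans ?_
        calc avg (fun x => a x ^ 4) * avg (fun x => b x ^ 4)
            ≤ (9 ^ (k + 1) * A ^ 2) * (9 ^ k * B ^ 2) :=
              mul_le_mul hA hB (avg_nonneg fun x => by positivity) (by positivity)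
          _ = (3 * 9 ^ k * (A * B)) ^ 2 := by ring
      have hk : (9 : ℝ) ^ (k + 1) = 9 * 9 ^ k := by ring
      rw [hk] at hA ⊢
      nlinarith [mul_nonneg h9.le (sq_nonneg B)]

/-- Functions of bounded degree are polynomials. -/
lemma eq_poly (f : (Fin n → Bool) → ℝ) (x : Fin n → Bool) :
    f x = poly Finset.univ (ft f) x := by
  rw [poly, Finset.powerset_univ]
  exact inversion f x

lemma bonami_deg {K : ℕ} {f : (Fin n → Bool) → ℝ} (hf : Deg K f) :
    avg (fun x => f x ^ 4) ≤ 9 ^ K * avg (fun x => f x ^ 2) ^ 2 := by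
  have h := bonami Finset.univ K (ft f) fun S _ hS => hf S hS
  simp_rw [← eq_poly f] at h
  exact h

end

end Pool.Agent.H14.KPoint
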