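import Pool.Agent.H14.KPoint.Defs

/-!
# k-point certificates
-/

namespace Pool.Agent.H14.KPoint

open Finset

open scoped MatrixOrder

noncomputable section

set_option linter.unusedSectionVars false

section Finite

variable {X : Type*} [Fintype X] [DecidableEq X]

lemma coefficient_fintype (T : Finset X → Option X → Option X → ℝ) (k : ℕ) (S : Finset X) :
    coefficient T k S = ∑ Q : Finset X with Q.card + 2 ≤ k, ∑ a : Option X, ∑ b : Option X,
      if Q ∪ (a.toFinset ∪ b.toFinset) = S then T Q a b else 0 := by
  rw [coefficient]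
  have h1 : ∀ Q : Finset X, (∑ a ∈ insertNone S, ∑ b ∈ insertNone S,
      if Q ∪ (a.toFinset ∪ b.toFinset) = S then T Q a b else 0) =
      ∑ a : Option X, ∑ b : Option X,
        if Q ∪ (a.toFinset ∪ b.toFinset) = S then T Q a b else 0 := by
    intro Q
    have hmem : ∀ a b : Option X, Q ∪ (a.toFinset ∪ b.toFinset) = S →
        a ∈ insertNone S ∧ b ∈ insertNone S := by
      intro a b h
      subst h
      constructor
      · rw [Finset.mem_insertNone]
        intro x hx
        simp [hx]
      · rw [Finset.mem_insertNone]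
        intro x hx
        simp [hx]
    rw [Finset.sum_subset (Finset.subset_univ (insertNone S))]
    · refine Finset.sum_congr rfl fun a _ => ?_
      refine Finset.sum_subset (Finset.subset_univ (insertNone S)) fun b _ hb => ?_
      rw [if_neg]
      intro h
      exact hb (hmem a b h).2
    · intro a _ ha
      refine Finset.sum_eq_zero fun b _ => ?_
      rw [if_neg]
      intro h
      exact ha (hmem a b h).1
  simp_rw [h1]
  refine Finset.sum_subset ?_ ?_
  · intro Q hQ
    rw [Finset.mem_filter] at hQ ⊢
    exact ⟨Finset.mem_univ _, hQ.2⟩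
  · intro Q hQ hQ'
    rw [Finset.mem_filter] at hQ hQ'
    refine Finset.sum_eq_zero fun a _ => Finset.sum_eq_zero fun b _ => ?_
    rw [if_neg]
    intro h
    apply hQ'
    refine ⟨?_, hQ.2⟩
    rw [Finset.mem_powerset, ← h]
    exact Finset.subset_union_left

lemma frobenius {ι : Type*} [Fintype ι] [DecidableEq ι] (T Y : ι → ι → ℝ)
    (hY : ∀ a b, Y a b = Y b a)
    (hT : ∀ c : ι → ℝ, 0 ≤ ∑ a, ∑ b, c a * c b * T a b)
    (hYp : ∀ c : ι → ℝ, 0 ≤ ∑ a, ∑ b, c a * c b * Y a b) :
    0 ≤ ∑ a, ∑ b, T a b * Y a b := by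
  have hps : (Matrix.of Y).PosSemidef := by
    refine Matrix.PosSemidef.of_dotProduct_mulVec_nonneg ?_ ?_
    · ext a b
      simp [Matrix.conjTranspose_apply, hY a b]
    · intro c
      have h := hYp c
      have e : star c ⬝ᵥ (Matrix.of Y).mulVec c = ∑ a, ∑ b, c a * c b * Y a b := by
        simp only [dotProduct, Matrix.mulVec, Finset.mul_sum, Matrix.of_apply, Pi.star_apply,
          star_trivial]
        refine Finset.sum_congr rfl fun a _ => Finset.sum_congr rfl fun b _ => ?_
        ring
      rw [e]; exact h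
  obtain ⟨Bm, hB⟩ := CStarAlgebra.nonneg_iff_eq_star_mul_self.mp hps.nonneg
  have h1 : ∀ a b, Y a b = ∑ r, Bm r a * Bm r b := by
    intro a b
    have := congrFun (congrFun hB a) b
    simpa [Matrix.mul_apply, Matrix.star_apply] using this
  have h2 : ∑ a, ∑ b, T a b * Y a b = ∑ r, ∑ a, ∑ b, Bm r a * Bm r b * T a b := by
    simp_rw [h1, Finset.mul_sum]
    have : ∀ a, ∑ b, ∑ r, T a b * (Bm r a * Bm r b) = ∑ r, ∑ b, Bm r a * Bm r b * T a b := by
      intro a
      rw [Finset.sum_comm]
      exact Finset.sum_congr rfl fun r _ => Finset.sum_congr rfl fun b _ => by ring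
    simp_rw [this]
    rw [Finset.sum_comm]
  rw [h2]
  exact Finset.sum_nonneg fun r _ => hT (Bm r)

/-- **Weak duality** on a finite set of points. -/
theorem duality {ok : X → X → Prop} {k : ℕ} {B : ℝ} (hk : 2 ≤ k) (C : Certificate ok k B)
    (y : Finset X → ℝ) (hy0 : ∀ S, 0 ≤ y S) (hy1 : ∀ S, ¬ IsCode ok S → y S = 0)
    (hye : y ∅ = 1)
    (hpsd : ∀ Q, IsCode ok Q → Q.card + 2 ≤ k → ∀ g : Option X → ℝ,
      0 ≤ ∑ a, ∑ b, g a * g b * y (Q ∪ (a.toFinset ∪ b.toFinset))) :
    ∑ x, y {x} ≤ B := by
  classical
  have hcard : ∀ (a : Option X), a.toFinset.card ≤ 1 := by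
    intro a; cases a <;> simp
  -- the total
  set W : ℝ := ∑ S : Finset X with S.card ≤ k,
    y S * ((if S.card = 1 then (1 : ℝ) else 0) + coefficient C.T k S) with hW
  have h1 : W ≤ B := by
    have hmem : (∅ : Finset X) ∈ (Finset.univ.filter fun S : Finset X => S.card ≤ k) := by simp
    rw [hW, ← Finset.add_sum_erase _ _ hmem]
    have e1 : y ∅ * ((if (∅ : Finset X).card = 1 then (1 : ℝ) else 0) + coefficient C.T k ∅) ≤
        B := by
      rw [hye]; simpa using C.base
    have e2 : ∑ S ∈ (Finset.univ.filter fun S : Finset X => S.card ≤ k).erase ∅,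
        y S * ((if S.card = 1 then (1 : ℝ) else 0) + coefficient C.T k S) ≤ 0 := by
      refine Finset.sum_nonpos fun S hS => ?_
      rw [Finset.mem_erase, Finset.mem_filter] at hS
      by_cases hc : IsCode ok S
      · exact mul_nonpos_of_nonneg_of_nonpos (hy0 S)
          (C.coeff S hc (Finset.nonempty_iff_ne_empty.2 hS.1) hS.2.2)
      · rw [hy1 S hc, zero_mul]
    linarith
  have h2 : W = ∑ x, y {x} + ∑ Q : Finset X with Q.card + 2 ≤ k,
      ∑ a : Option X, ∑ b : Option X, C.T Q a b * y (Q ∪ (a.toFinset ∪ b.toFinset)) := by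
    rw [hW]
    simp_rw [mul_add]
    rw [Finset.sum_add_distrib]
    congr 1
    · have e1 : ∀ S : Finset X, y S * (if S.card = 1 then (1 : ℝ) else 0) =
          if S.card = 1 then y S else 0 := by
        intro S; split_ifs <;> simp
      simp_rw [e1]
      rw [← Finset.sum_filter, Finset.filter_filter]
      have e2 : (Finset.univ.filter fun S : Finset X => S.card ≤ k ∧ S.card = 1) =
          Finset.univ.image (fun x : X => ({x} : Finset X)) := by
        ext S
        simp only [Finset.mem_filter, Finset.mem_univ, true_and, Finset.mem_image]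
        constructor
        · rintro ⟨_, h⟩
          obtain ⟨x, rfl⟩ := Finset.card_eq_one.1 h
          exact ⟨x, rfl⟩
        · rintro ⟨x, rfl⟩
          rw [Finset.card_singleton]
          exact ⟨by omega, rfl⟩
      rw [e2, Finset.sum_image]
      intro x _ z _ h
      exact Finset.singleton_injective h
    · simp_rw [coefficient_fintype, Finset.mul_sum]
      rw [Finset.sum_comm]
      refine Finset.sum_congr rfl fun Q hQ => ?_
      rw [Finset.mem_filter] at hQ
      rw [Finset.sum_comm]
      refine Finset.sum_congr rfl fun a _ => ?_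
      rw [Finset.sum_comm]
      refine Finset.sum_congr rfl fun b _ => ?_
      have hle : (Q ∪ (a.toFinset ∪ b.toFinset)).card ≤ k := by
        have u1 := Finset.card_union_le Q (a.toFinset ∪ b.toFinset)
        have u2 := Finset.card_union_le a.toFinset b.toFinset
        have u3 := hcard a
        have u4 := hcard b
        omega
      rw [Finset.sum_eq_single (Q ∪ (a.toFinset ∪ b.toFinset))]
      · rw [if_pos rfl]; ring
      · intro S _ hS
        rw [if_neg (Ne.symm hS), mul_zero]
      · intro h
        exact absurd (by simpa using hle) h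
  have h3 : 0 ≤ ∑ Q : Finset X with Q.card + 2 ≤ k,
      ∑ a : Option X, ∑ b : Option X, C.T Q a b * y (Q ∪ (a.toFinset ∪ b.toFinset)) := by
    refine Finset.sum_nonneg fun Q hQ => ?_
    rw [Finset.mem_filter] at hQ
    by_cases hc : IsCode ok Q
    · refine frobenius (C.T Q) (fun a b => y (Q ∪ (a.toFinset ∪ b.toFinset))) ?_ ?_ ?_
      · intro a b
        rw [Finset.union_comm a.toFinset]
      · intro c
        exact C.psd Q hc hQ.2 Finset.univ c
      · intro c
        exact hpsd Q hc hQ.2 c
    · refine Finset.sum_nonneg fun a _ => Finset.sum_nonneg fun b _ => ?_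
      rw [hy1, mul_zero]
      intro h
      apply hc
      intro x hx z hz hxz
      exact h x (Finset.mem_union_left _ hx) z (Finset.mem_union_left _ hz) hxz
  linarith

end Finite

section Comap

variable {V X : Type*} [DecidableEq V] [DecidableEq X]

lemma toFinset_map (ι : X ↪ V) (a : Option X) : (a.map ι).toFinset = a.toFinset.map ι := by
  cases a <;> simp

lemma coefficient_map (ι : X ↪ V) (T : Finset V → Option V → Option V → ℝ) (k : ℕ)
    (S : Finset X) :
    coefficient (fun Q a b => T (Q.map ι) (a.map ι) (b.map ι)) k S =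
      coefficient T k (S.map ι) := by
  rw [coefficient, coefficient]
  refine Finset.sum_bij (fun Q _ => Q.map ι) ?_ ?_ ?_ ?_
  · intro Q hQ
    rw [Finset.mem_filter, Finset.mem_powerset] at hQ ⊢
    exact ⟨Finset.map_subset_map.2 hQ.1, by simpa using hQ.2⟩
  · intro Q _ Q' _ h
    exact Finset.map_injective ι h
  · intro Q hQ
    rw [Finset.mem_filter, Finset.mem_powerset, Finset.subset_map_iff] at hQ
    obtain ⟨⟨Q', hQ', rfl⟩, h2⟩ := hQ
    exact ⟨Q', Finset.mem_filter.2 ⟨Finset.mem_powerset.2 hQ', by simpa using h2⟩, rfl⟩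
  · intro Q _
    have hiff : ∀ a b : Option X, (Q ∪ (a.toFinset ∪ b.toFinset) = S) ↔
        (Q.map ι ∪ ((a.map ι).toFinset ∪ (b.map ι).toFinset) = S.map ι) := by
      intro a b
      rw [toFinset_map, toFinset_map, ← Finset.map_union, ← Finset.map_union]
      exact (Finset.map_injective ι).eq_iff.symm
    have h1 : ∀ (f : Option V → ℝ), ∑ a ∈ insertNone (S.map ι), f a =
        ∑ a ∈ insertNone S, f (a.map ι) := by
      intro f
      rw [Finset.sum_insertNone, Finset.sum_insertNone, Finset.sum_map]
      rfl
    rw [h1]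
    refine Finset.sum_congr rfl fun a _ => ?_
    rw [h1]
    refine Finset.sum_congr rfl fun b _ => ?_
    simp only [hiff a b]

lemma isCode_map (ι : X ↪ V) {ok : V → V → Prop} (S : Finset X) :
    IsCode ok (S.map ι) ↔ IsCode (fun x y => ok (ι x) (ι y)) S := by
  constructor
  · intro h x hx y hy hxy
    exact h (ι x) (Finset.mem_map_of_mem ι hx) (ι y) (Finset.mem_map_of_mem ι hy)
      (fun e => hxy (ι.injective e))
  · intro h x hx y hy hxy
    obtain ⟨x', hx', rfl⟩ := Finset.mem_map.1 hx
    obtain ⟨y', hy', rfl⟩ := Finset.mem_map.1 hy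
    exact h x' hx' y' hy' (fun e => hxy (by rw [e]))

/-- Certificates restrict to subsets. -/
def Certificate.comap {ok : V → V → Prop} {k : ℕ} {B : ℝ} (C : Certificate ok k B) (ι : X ↪ V) :
    Certificate (fun x y => ok (ι x) (ι y)) k B where
  T Q a b := C.T (Q.map ι) (a.map ι) (b.map ι)
  symm Q a b := C.symm _ _ _
  psd Q hQ hk F c := by
    have hinj : Function.Injective (Option.map ι : Option X → Option V) :=
      Option.map_injective ι.injective
    have h := C.psd (Q.map ι) ((isCode_map ι Q).2 hQ) (by simpa using hk)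
      (F.map ⟨Option.map ι, hinj⟩) (Function.extend (Option.map ι) c 0)
    rw [Finset.sum_map] at h
    simp_rw [Finset.sum_map] at h
    simpa [hinj.extend_apply] using h
  base := by
    rw [coefficient_map]
    simpa using C.base
  coeff S hS hne hc := by
    rw [coefficient_map]
    have h := C.coeff (S.map ι) ((isCode_map ι S).2 hS) (hne.map) (by simpa using hc)
    simpa using h

/-- **Soundness**: the value of a certificate bounds the size of every code. -/
theorem Certificate.sound {ok : V → V → Prop} {k : ℕ} {B : ℝ} (hk : 2 ≤ k)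
    (C : Certificate ok k B) (S : Finset V) (hS : IsCode ok S) : (S.card : ℝ) ≤ B := by
  classical
  have h := duality (X := {x // x ∈ S}) hk (C.comap (Function.Embedding.subtype _))
    (fun _ => 1) (fun _ => zero_le_one) ?_ rfl ?_
  · simpa using h
  · intro R hR
    exfalso
    apply hR
    intro x _ y _ hxy
    exact hS x.1 x.2 y.1 y.2 (fun e => hxy (Subtype.ext e))
  · intro Q _ _ g
    have : ∑ a, ∑ b, g a * g b * (1 : ℝ) = (∑ a, g a) * ∑ b, g b := by
      rw [Finset.sum_mul_sum]
      simp
    rw [this]
    exact mul_self_nonneg _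

end Comap

end

end Pool.Agent.H14.KPoint
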