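import Pool.Agent.H14.KPoint.Local

/-!
# Conditioned moments of the cube
-/

namespace Pool.Agent.H14.KPoint

open Finset

noncomputable section

variable {n : ℕ}

/-- the quadratic form of the moments around `U` -/
def PP (θ : ℝ) (h : (Fin n → Bool) → ℝ) (U : Finset (Fin n → Bool))
    (g : Option (Fin n → Bool) → ℝ) : ℝ :=
  ∑ a, ∑ b, g a * g b * pm θ h (U ∪ (a.toFinset ∪ b.toFinset))

/-- the quadratic form of the conditioned moments -/
def PC (θ : ℝ) (h : (Fin n → Bool) → ℝ) (U W : Finset (Fin n → Bool))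
    (g : Option (Fin n → Bool) → ℝ) : ℝ :=
  ∑ a, ∑ b, g a * g b * ex (pm θ h) U W (a.toFinset ∪ b.toFinset)

variable {θ ε M τ : ℝ} {r : ℕ} {h : (Fin n → Bool) → ℝ}

/-- Adding a point to the conditioning set decreases the form a lot. -/
lemma Good.step (H : Good θ ε M τ r h) {U : Finset (Fin n → Bool)} (hU : U.card + 1 ≤ r)
    {z : Fin n → Bool} (hz : z ∉ U) (g : Option (Fin n → Bool) → ℝ) (hg : g (some z) = 0) :
    PP θ h (insert z U) g ≤ τ * (12 * (τ * 2 ^ n) + 4) * PP θ h U g := by
  have hτ := H.τ_nonneg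
  set t := tt θ h U with ht
  set t' := tt θ h (insert z U) with ht'
  set v : (Fin n → Bool) → ℝ := fun x => if x ∈ U then 0 else t x * |g (some x)| with hv
  set N : ℝ := ∑ x, v x with hN
  have ht0 : ∀ x, 0 ≤ t x := H.tt_nonneg U
  have hv0 : ∀ x, 0 ≤ v x := by
    intro x
    rw [hv]; simp only
    by_cases hx : x ∈ U
    · rw [if_pos hx]
    · rw [if_neg hx]; exact mul_nonneg (ht0 x) (abs_nonneg _)
  have hN0 : 0 ≤ N := Finset.sum_nonneg fun x _ => hv0 x
  -- relation between `t'` and `t`
  have htt : ∀ x, x ∉ insert z U → t' x = t x * h (xo x z) := by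
    intro x hx
    have hx' : x ∉ U := fun e => hx (Finset.mem_insert_of_mem e)
    rw [ht', ht, tt, if_neg hx, tt, if_neg hx', wt_insert h hz]
    ring
  have hR0 := H.RR_nonneg U g
  -- the norm
  have hNsq : N ^ 2 ≤ (τ * 2 ^ n) * RR θ h U g := by
    have c := Finset.sum_mul_sq_le_sq_mul_sq (Finset.univ : Finset (Fin n → Bool))
      (fun x => Real.sqrt (if x ∉ U then t x else 0))
      (fun x => Real.sqrt (if x ∉ U then t x * g (some x) ^ 2 else 0))
    have e1 : ∀ x, Real.sqrt (if x ∉ U then t x else 0) *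
        Real.sqrt (if x ∉ U then t x * g (some x) ^ 2 else 0) = v x := by
      intro x
      rw [hv]; simp only
      by_cases hx : x ∈ U
      · simp [hx]
      · rw [if_pos hx, if_pos hx, if_neg hx, ← Real.sqrt_mul (ht0 x),
          show t x * (t x * g (some x) ^ 2) = (t x * |g (some x)|) ^ 2 by
            rw [mul_pow, sq_abs]; ring, Real.sqrt_sq (mul_nonneg (ht0 x) (abs_nonneg _))]
    simp_rw [e1] at c
    have e2 : ∑ x : Fin n → Bool, Real.sqrt (if x ∉ U then t x else 0) ^ 2 ≤ τ * 2 ^ n := by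
      calc ∑ x : Fin n → Bool, Real.sqrt (if x ∉ U then t x else 0) ^ 2
          ≤ ∑ _x : Fin n → Bool, τ := by
            refine Finset.sum_le_sum fun x _ => ?_
            by_cases hx : x ∉ U
            · rw [if_pos hx, Real.sq_sqrt (ht0 x)]
              exact H.tt_le (by omega) hx
            · rw [if_neg hx]; simpa using hτ
        _ = τ * 2 ^ n := by
            rw [Finset.sum_const, nsmul_eq_mul, mul_comm]
            simp
    have e3 : ∑ x : Fin n → Bool, Real.sqrt (if x ∉ U then t x * g (some x) ^ 2 else 0) ^ 2 =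
        RR θ h U g := by
      rw [RR]
      refine Finset.sum_congr rfl fun x _ => ?_
      by_cases hx : x ∉ U
      · rw [if_pos hx, Real.sq_sqrt (mul_nonneg (ht0 x) (sq_nonneg _))]
      · rw [if_neg hx]; simp
    rw [e3] at c
    exact le_trans c (mul_le_mul_of_nonneg_right e2 hR0)
  -- the linear part
  have hL : |LL θ h (insert z U) g - LL θ h U g| ≤ N := by
    rw [LL, LL, ← ht, ← ht', add_sub_add_left_eq_sub, ← Finset.sum_sub_distrib]
    refine le_trans (Finset.abs_sum_le_sum_abs _ _) (Finset.sum_le_sum fun x _ => ?_)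
    rw [← sub_mul, abs_mul]
    by_cases hx : x ∈ U
    · have e1 : t' x = 1 := by rw [ht', tt, if_pos (Finset.mem_insert_of_mem hx)]
      have e2 : t x = 1 := by rw [ht, tt, if_pos hx]
      rw [e1, e2, sub_self, abs_zero, zero_mul]
      exact hv0 x
    · by_cases hxz : x = z
      · subst hxz
        rw [hg, abs_zero, mul_zero]
        exact hv0 x
      · have hx' : x ∉ insert z U := by
          rw [Finset.mem_insert, not_or]; exact ⟨hxz, hx⟩
        rw [htt x hx', hv]
        simp only
        rw [if_neg hx]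
        refine mul_le_mul_of_nonneg_right ?_ (abs_nonneg _)
        rw [show t x * h (xo x z) - t x = t x * (h (xo x z) - 1) by ring, abs_mul,
          abs_of_nonneg (ht0 x)]
        have : |h (xo x z) - 1| ≤ 1 := by
          rw [abs_le]
          have h1 := H.nonneg (xo x z)
          have h2 := H.le (xo x z)
          have h3 := H.le_two
          constructor <;> linarith
        calc t x * |h (xo x z) - 1| ≤ t x * 1 := mul_le_mul_of_nonneg_left this (ht0 x)
          _ = t x := mul_one _
  have hL2 : LL θ h (insert z U) g ^ 2 ≤ 2 * LL θ h U g ^ 2 + 2 * N ^ 2 := by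
    have h1 : (LL θ h (insert z U) g - LL θ h U g) ^ 2 ≤ N ^ 2 := by
      rw [← sq_abs]
      exact pow_le_pow_left₀ (abs_nonneg _) hL 2
    nlinarith [sq_nonneg (LL θ h (insert z U) g - 2 * LL θ h U g)]
  -- the weighted test function
  have hu : ∀ x, |uu θ h (insert z U) g x| ≤ 2 * v x := by
    intro x
    rw [uu]
    by_cases hx : x ∈ insert z U
    · rw [if_pos hx, abs_zero]; linarith [hv0 x]
    · have hx' : x ∉ U := fun e => hx (Finset.mem_insert_of_mem e)
      rw [if_neg hx, ← ht', htt x hx, hv]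
      simp only
      rw [if_neg hx', abs_mul, abs_of_nonneg (mul_nonneg (ht0 x) (H.nonneg _))]
      have h2 : h (xo x z) ≤ 2 := le_trans (H.le _) H.le_two
      calc t x * h (xo x z) * |g (some x)| ≤ t x * 2 * |g (some x)| :=
            mul_le_mul_of_nonneg_right (mul_le_mul_of_nonneg_left h2 (ht0 x)) (abs_nonneg _)
        _ = 2 * (t x * |g (some x)|) := by ring
  have hQ : QQ θ h (insert z U) g ≤ 4 * N ^ 2 := by
    rw [QQ]
    calc ∑ x, ∑ y, uu θ h (insert z U) g x * uu θ h (insert z U) g y * (h (xo x y) - 1)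
        ≤ ∑ x, ∑ y, (2 * v x) * (2 * v y) := by
          refine Finset.sum_le_sum fun x _ => Finset.sum_le_sum fun y _ => ?_
          refine le_trans (le_abs_self _) ?_
          rw [abs_mul, abs_mul]
          have : |h (xo x y) - 1| ≤ 1 := by
            rw [abs_le]
            have h1 := H.nonneg (xo x y)
            have h2 := H.le (xo x y)
            have h3 := H.le_two
            constructor <;> linarith
          calc |uu θ h (insert z U) g x| * |uu θ h (insert z U) g y| * |h (xo x y) - 1|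
              ≤ (2 * v x * (2 * v y)) * 1 := by
                refine mul_le_mul ?_ this (abs_nonneg _) ?_
                · exact mul_le_mul (hu x) (hu y) (abs_nonneg _) (by linarith [hv0 x])
                · exact mul_nonneg (by linarith [hv0 x]) (by linarith [hv0 y])
            _ = 2 * v x * (2 * v y) := mul_one _
      _ = (∑ x, 2 * v x) * ∑ y, 2 * v y := by rw [Finset.sum_mul_sum]
      _ = 4 * N ^ 2 := by rw [← Finset.mul_sum, hN]; ring
  have hR : RR θ h (insert z U) g ≤ 2 * RR θ h U g := by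
    rw [RR, RR, Finset.mul_sum]
    refine Finset.sum_le_sum fun x _ => ?_
    by_cases hx : x ∉ insert z U
    · have hx' : x ∉ U := fun e => hx (Finset.mem_insert_of_mem e)
      rw [if_pos hx, if_pos hx', ← ht', htt x hx]
      have h2 : h (xo x z) ≤ 2 := le_trans (H.le _) H.le_two
      have h3 : 0 ≤ t x * g (some x) ^ 2 := mul_nonneg (ht0 x) (sq_nonneg _)
      calc t x * h (xo x z) * g (some x) ^ 2 = h (xo x z) * (t x * g (some x) ^ 2) := by ring
        _ ≤ 2 * (t x * g (some x) ^ 2) := mul_le_mul_of_nonneg_right h2 h3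
    · rw [if_neg hx]
      by_cases hx' : x ∉ U
      · rw [if_pos hx']
        exact mul_nonneg (by norm_num) (mul_nonneg (ht0 x) (sq_nonneg _))
      · rw [if_neg hx']; simp
  have hb : 0 ≤ τ * 2 ^ n := mul_nonneg hτ (by positivity)
  -- conclusion
  rw [PP, PP, pm_form H.nonneg H.zero, pm_form H.nonneg H.zero, pm_insert H.nonneg]
  have hlow := H.lower (Q := U) (by omega) g
  set L := LL θ h U g with hLdef
  set R := RR θ h U g with hRdef
  have hup : LL θ h (insert z U) g ^ 2 + (QQ θ h (insert z U) g + RR θ h (insert z U) g) ≤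
      (12 * (τ * 2 ^ n) + 4) * (L ^ 2 + (QQ θ h U g + R)) := by
    have h1 : LL θ h (insert z U) g ^ 2 + (QQ θ h (insert z U) g + RR θ h (insert z U) g) ≤
        2 * L ^ 2 + (6 * (τ * 2 ^ n) + 2) * R := by nlinarith
    have h2 : L ^ 2 + 1 / 2 * R ≤ L ^ 2 + (QQ θ h U g + R) := by linarith
    have h3 : 2 * L ^ 2 + (6 * (τ * 2 ^ n) + 2) * R ≤
        (12 * (τ * 2 ^ n) + 4) * (L ^ 2 + 1 / 2 * R) := by
      nlinarith [sq_nonneg L, mul_nonneg hb (sq_nonneg L)]
    have h4 : (12 * (τ * 2 ^ n) + 4) * (L ^ 2 + 1 / 2 * R) ≤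
        (12 * (τ * 2 ^ n) + 4) * (L ^ 2 + (QQ θ h U g + R)) :=
      mul_le_mul_of_nonneg_left h2 (by linarith)
    linarith
  have hpos : 0 ≤ L ^ 2 + (QQ θ h U g + R) := by nlinarith [sq_nonneg L]
  have hpm := H.pm_nonneg U
  have htz0 := ht0 z
  have htz := H.tt_le (Q := U) (by omega) hz
  have hpt : 0 ≤ pm θ h U * t z := mul_nonneg hpm htz0
  calc pm θ h U * tt θ h U z *
        (LL θ h (insert z U) g ^ 2 + (QQ θ h (insert z U) g + RR θ h (insert z U) g))
      ≤ pm θ h U * tt θ h U z * ((12 * (τ * 2 ^ n) + 4) * (L ^ 2 + (QQ θ h U g + R))) :=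
        mul_le_mul_of_nonneg_left hup hpt
    _ = tt θ h U z * (pm θ h U * ((12 * (τ * 2 ^ n) + 4) * (L ^ 2 + (QQ θ h U g + R)))) := by
        ring
    _ ≤ τ * (pm θ h U * ((12 * (τ * 2 ^ n) + 4) * (L ^ 2 + (QQ θ h U g + R)))) :=
        mul_le_mul_of_nonneg_right htz
          (mul_nonneg hpm (mul_nonneg (by linarith) hpos))
    _ = τ * (12 * (τ * 2 ^ n) + 4) * (pm θ h U * (L ^ 2 + (QQ θ h U g + R))) := by ring

/-- The conditioned forms are comparable with the unconditioned ones. -/
lemma Good.cond (H : Good θ ε M τ r h) {δ : ℝ} (hδ : δ = τ * (12 * (τ * 2 ^ n) + 4))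
    (hδr : r * δ ≤ 1) (W : Finset (Fin n → Bool)) :
    ∀ U : Finset (Fin n → Bool), Disjoint U W → U.card + W.card ≤ r →
      ∀ g : Option (Fin n → Bool) → ℝ, (∀ z ∈ W, g (some z) = 0) →
      (1 - W.card * δ) * PP θ h U g ≤ PC θ h U W g ∧ PC θ h U W g ≤ PP θ h U g := by
  have hτ := H.τ_nonneg
  have hδ0 : 0 ≤ δ := by
    rw [hδ]
    have : 0 ≤ τ * 2 ^ n := mul_nonneg hτ (by positivity)
    exact mul_nonneg hτ (by linarith)
  induction W using Finset.induction_on with
  | empty =>
    intro U _ _ g _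
    have : PC θ h U ∅ g = PP θ h U g := by
      rw [PC, PP]
      simp_rw [ex_empty]
    rw [this]
    simp
  | insert z W hz ih =>
    intro U hUW hr g hg
    rw [Finset.disjoint_insert_right] at hUW
    rw [Finset.card_insert_of_notMem hz] at hr
    have h1 : PC θ h U (insert z W) g = PC θ h U W g - PC θ h (insert z U) W g := by
      rw [PC, PC, PC, ← Finset.sum_sub_distrib]
      refine Finset.sum_congr rfl fun a _ => ?_
      rw [← Finset.sum_sub_distrib]
      refine Finset.sum_congr rfl fun b _ => ?_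
      rw [ex_insert _ U hz]
      ring
    have h2 := ih U hUW.2 (by omega) g (fun w hw => hg w (Finset.mem_insert_of_mem hw))
    have hd : Disjoint (insert z U) W := by
      rw [Finset.disjoint_insert_left]; exact ⟨hz, hUW.2⟩
    have hc : (insert z U).card = U.card + 1 := Finset.card_insert_of_notMem hUW.1
    have h3 := ih (insert z U) hd (by omega) g
      (fun w hw => hg w (Finset.mem_insert_of_mem hw))
    have h4 := H.step (U := U) (by omega) hUW.1 g (hg z (Finset.mem_insert_self _ _))
    rw [← hδ] at h4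
    have hP0 : 0 ≤ PP θ h U g := H.psd (by omega) g
    have hP1 : 0 ≤ PP θ h (insert z U) g := H.psd (by omega) g
    have hWr : (W.card : ℝ) * δ ≤ 1 := by
      have : (W.card : ℝ) ≤ r := by exact_mod_cast (by omega : W.card ≤ r)
      exact le_trans (mul_le_mul_of_nonneg_right this hδ0) hδr
    rw [h1, Finset.card_insert_of_notMem hz]
    push_cast
    constructor
    · have : (1 - ((W.card : ℝ) + 1) * δ) * PP θ h U g =
          (1 - W.card * δ) * PP θ h U g - δ * PP θ h U g := by ring
      rw [this]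
      linarith [h2.1, h3.2]
    · have h5 : 0 ≤ (1 - W.card * δ) * PP θ h (insert z U) g :=
        mul_nonneg (by linarith) hP1
      linarith [h2.2, h3.1]

/-- The conditioned forms are positive semidefinite. -/
lemma Good.cond_psd (H : Good θ ε M τ r h) {δ : ℝ} (hδ : δ = τ * (12 * (τ * 2 ^ n) + 4))
    (hδr : r * δ ≤ 1) (U W : Finset (Fin n → Bool)) (hUW : Disjoint U W)
    (hr : U.card + W.card ≤ r) (g : Option (Fin n → Bool) → ℝ) :
    0 ≤ ∑ a, ∑ b, g a * g b * ex (pm θ h) U W (a.toFinset ∪ b.toFinset) := by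
  have hτ := H.τ_nonneg
  have hδ0 : 0 ≤ δ := by
    rw [hδ]
    have : 0 ≤ τ * 2 ^ n := mul_nonneg hτ (by positivity)
    exact mul_nonneg hτ (by linarith)
  set g' : Option (Fin n → Bool) → ℝ := fun a => if a.toFinset ∩ W = ∅ then g a else 0 with hg'
  have h1 : ∑ a, ∑ b, g a * g b * ex (pm θ h) U W (a.toFinset ∪ b.toFinset) =
      PC θ h U W g' := by
    rw [PC]
    refine Finset.sum_congr rfl fun a _ => Finset.sum_congr rfl fun b _ => ?_
    rw [hg']
    simp only
    by_cases ha : a.toFinset ∩ W = ∅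
    · by_cases hb : b.toFinset ∩ W = ∅
      · rw [if_pos ha, if_pos hb]
      · obtain ⟨z, hz⟩ := Finset.nonempty_iff_ne_empty.2 hb
        rw [Finset.mem_inter] at hz
        rw [ex_eq_zero _ U W _ z hz.2 (Finset.mem_union_right _ hz.1)]
        ring
    · obtain ⟨z, hz⟩ := Finset.nonempty_iff_ne_empty.2 ha
      rw [Finset.mem_inter] at hz
      rw [ex_eq_zero _ U W _ z hz.2 (Finset.mem_union_left _ hz.1)]
      ring
  rw [h1]
  have h2 := H.cond hδ hδr W U hUW hr g' (by
    intro z hz
    rw [hg']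
    simp only
    rw [if_neg]
    simp [hz])
  have hP0 : 0 ≤ PP θ h U g' := H.psd (by omega) g'
  have hWr : (W.card : ℝ) * δ ≤ 1 := by
    have : (W.card : ℝ) ≤ r := by exact_mod_cast (by omega : W.card ≤ r)
    exact le_trans (mul_le_mul_of_nonneg_right this hδ0) hδr
  exact le_trans (mul_nonneg (by linarith) hP0) h2.1

/-- **Feasibility** of the pseudo-moments on the cube. -/
theorem Good.moments (H : Good θ ε M τ r h) {δ : ℝ} (hδ : δ = τ * (12 * (τ * 2 ^ n) + 4))
    (hδr : r * δ ≤ 1) (a : ℝ) (hfar : ∀ x : Fin n → Bool, a < |sm x| → h x = 0) :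
    Moments (fun x y : Fin n → Bool => |sm (xo x y)| ≤ a) (r + 2) (pm θ h) where
  empty := by simp [pm, G]
  nonneg := H.pm_nonneg
  code := by
    intro S hS
    rw [IsCode] at hS
    push Not at hS
    obtain ⟨x, hx, y, hy, hxy, hlt⟩ := hS
    have : G h S = 0 := by
      rw [G, Finset.prod_eq_zero (i := (x, y)), Real.sqrt_zero]
      · rw [Finset.mem_offDiag]; exact ⟨hx, hy, hxy⟩
      · exact hfar _ hlt
    rw [pm, this, mul_zero]
  psd := by
    intro T hT F hF c
    have h1 := local_psd (pm θ h) r (H.cond_psd hδ hδr) T ∅ ∅ (Finset.disjoint_empty_left _)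
      (Finset.disjoint_empty_right _) (Finset.disjoint_empty_right _) (by simpa using hT)
      (fun A => if A ∈ F then c A else 0) (by
        intro A hA
        by_cases h2 : A ∈ F
        · exact hF A h2
        · simp [h2] at hA)
    have h2 : ∑ A, ∑ B, (if A ∈ F then c A else 0) * (if B ∈ F then c B else 0) *
        ex (pm θ h) ∅ ∅ (A ∪ B) = ∑ A ∈ F, ∑ B ∈ F, c A * c B * pm θ h (A ∪ B) := by
      simp_rw [ex_empty, Finset.empty_union]
      have h3 : ∀ f : Finset (Fin n → Bool) → ℝ, ∑ A, (if A ∈ F then c A else 0) * f A =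
          ∑ A ∈ F, c A * f A := by
        intro f
        simp_rw [ite_mul, zero_mul]
        rw [Finset.sum_ite_mem, Finset.univ_inter]
      have h4 : ∀ A, ∑ B, (if A ∈ F then c A else 0) * (if B ∈ F then c B else 0) *
          pm θ h (A ∪ B) = (if A ∈ F then c A else 0) * ∑ B ∈ F, c B * pm θ h (A ∪ B) := by
        intro A
        rw [← h3 (fun B => pm θ h (A ∪ B)), Finset.mul_sum]
        exact Finset.sum_congr rfl fun B _ => by ring
      simp_rw [h4]
      rw [h3 (fun A => ∑ B ∈ F, c B * pm θ h (A ∪ B))]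
      refine Finset.sum_congr rfl fun A _ => ?_
      rw [Finset.mul_sum]
      exact Finset.sum_congr rfl fun B _ => by ring
    rw [← h2]
    exact h1

end

end Pool.Agent.H14.KPoint
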