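import Mathlib

/-!
# Fourier analysis on the cube `Fin n → Bool`
-/

namespace Pool.Agent.H14.KPoint

open Finset

noncomputable section

/-- The sign of a bit. -/
def sg (b : Bool) : ℝ := if b then -1 else 1

@[simp] lemma sg_true : sg true = -1 := rfl
@[simp] lemma sg_false : sg false = 1 := rfl

lemma sg_xor (a b : Bool) : sg (xor a b) = sg a * sg b := by
  cases a <;> cases b <;> simp

lemma sg_not (a : Bool) : sg (!a) = - sg a := by cases a <;> simp

lemma sg_mul_self (a : Bool) : sg a * sg a = 1 := by cases a <;> simp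

lemma abs_sg (a : Bool) : |sg a| = 1 := by cases a <;> simp

variable {n : ℕ}

/-- Coordinatewise product of two points of the cube. -/
def xo (x y : Fin n → Bool) : Fin n → Bool := fun i => xor (x i) (y i)

/-- The characters of the cube. -/
def chi (S : Finset (Fin n)) (x : Fin n → Bool) : ℝ := ∏ i ∈ S, sg (x i)

@[simp] lemma chi_empty (x : Fin n → Bool) : chi ∅ x = 1 := by simp [chi]

lemma chi_xo (S : Finset (Fin n)) (x y : Fin n → Bool) : chi S (xo x y) = chi S x * chi S y := by
  simp [chi, xo, sg_xor, Finset.prod_mul_distrib]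

lemma chi_mul_self (S : Finset (Fin n)) (x : Fin n → Bool) : chi S x * chi S x = 1 := by
  rw [chi, ← Finset.prod_mul_distrib]
  simp [sg_mul_self]

lemma chi_mul (S T : Finset (Fin n)) (x : Fin n → Bool) :
    chi S x * chi T x = chi (symmDiff S T) x := by
  have h1 : chi S x = chi (S \ T) x * chi (S ∩ T) x := by
    rw [chi, chi, chi, ← Finset.prod_union (Finset.disjoint_sdiff_inter S T),
      Finset.sdiff_union_inter]
  have h2 : chi T x = chi (T \ S) x * chi (S ∩ T) x := by
    rw [chi, chi, chi, Finset.inter_comm, ← Finset.prod_union (Finset.disjoint_sdiff_inter T S),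
      Finset.sdiff_union_inter]
  have h3 : chi (symmDiff S T) x = chi (S \ T) x * chi (T \ S) x := by
    rw [chi, chi, chi, ← Finset.prod_union]
    · rfl
    · exact disjoint_sdiff_sdiff
  rw [h1, h2, h3]
  have := chi_mul_self (S ∩ T) x
  calc chi (S \ T) x * chi (S ∩ T) x * (chi (T \ S) x * chi (S ∩ T) x)
      = chi (S \ T) x * chi (T \ S) x * (chi (S ∩ T) x * chi (S ∩ T) x) := by ring
    _ = _ := by rw [this, mul_one]

lemma sum_chi (S : Finset (Fin n)) : ∑ x, chi S x = if S = ∅ then (2 : ℝ) ^ n else 0 := by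
  have h1 : ∀ x : Fin n → Bool, chi S x = ∏ i, (if i ∈ S then sg (x i) else 1) := by
    intro x
    rw [chi, Finset.prod_ite_mem, Finset.univ_inter]
  simp_rw [h1]
  have h2 := (Finset.prod_univ_sum (fun _ : Fin n => (Finset.univ : Finset Bool))
    (fun i b => if i ∈ S then sg b else (1 : ℝ))).symm
  rw [Fintype.piFinset_univ] at h2
  rw [h2]
  split_ifs with h
  · subst h; simp
  · obtain ⟨i, hi⟩ := Finset.nonempty_iff_ne_empty.2 h
    exact Finset.prod_eq_zero (Finset.mem_univ i) (by simp [hi])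

lemma sum_chi_mul (S T : Finset (Fin n)) :
    ∑ x, chi S x * chi T x = if S = T then (2 : ℝ) ^ n else 0 := by
  simp_rw [chi_mul]
  rw [sum_chi]
  simp only [← Finset.bot_eq_empty, symmDiff_eq_bot]

lemma sum_chi_dual (x : Fin n → Bool) :
    ∑ S : Finset (Fin n), chi S x = if x = fun _ => false then (2 : ℝ) ^ n else 0 := by
  have h1 : ∑ S : Finset (Fin n), chi S x = ∏ i : Fin n, (1 + sg (x i)) := by
    rw [Finset.prod_one_add, Finset.powerset_univ]
    rfl
  rw [h1]
  split_ifs with h
  · subst h; simp; norm_num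
  · have : ∃ i, x i = true := by
      by_contra hc
      push Not at hc
      apply h
      funext i
      simpa using hc i
    obtain ⟨i, hi⟩ := this
    exact Finset.prod_eq_zero (Finset.mem_univ i) (by simp [hi])

lemma xo_eq_false_iff (x y : Fin n → Bool) : xo x y = (fun _ => false) ↔ x = y := by
  constructor
  · intro h
    funext i
    have := congrFun h i
    simp only [xo] at this
    cases hx : x i <;> cases hy : y i <;> simp_all
  · rintro rfl
    funext i
    simp [xo]

lemma xo_comm (x y : Fin n → Bool) : xo x y = xo y x := by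
  funext i; simp [xo, Bool.xor_comm]

/-- Fourier coefficients. -/
def ft (f : (Fin n → Bool) → ℝ) (S : Finset (Fin n)) : ℝ := (∑ x, f x * chi S x) / 2 ^ n

lemma two_pow_ne : (2 : ℝ) ^ n ≠ 0 := by positivity

lemma inversion (f : (Fin n → Bool) → ℝ) (x : Fin n → Bool) :
    f x = ∑ S, ft f S * chi S x := by
  have h1 : ∀ S, ft f S * chi S x = (∑ y, f y * chi S (xo y x)) / 2 ^ n := by
    intro S
    rw [ft, div_mul_eq_mul_div, Finset.sum_mul]
    congr 1
    refine Finset.sum_congr rfl fun y _ => ?_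
    rw [chi_xo]; ring
  simp_rw [h1]
  rw [← Finset.sum_div, Finset.sum_comm]
  simp_rw [← Finset.mul_sum, sum_chi_dual, xo_eq_false_iff]
  simp

lemma parseval (f : (Fin n → Bool) → ℝ) : ∑ S, ft f S ^ 2 = (∑ x, f x ^ 2) / 2 ^ n := by
  have h1 : ∀ x, f x ^ 2 = ∑ S, ft f S * (f x * chi S x) := by
    intro x
    conv_lhs => rw [sq, inversion f x]
    rw [Finset.sum_mul]
    refine Finset.sum_congr rfl fun S _ => ?_
    rw [← inversion f x]; ring
  simp_rw [h1]
  rw [Finset.sum_comm, Finset.sum_div]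
  refine Finset.sum_congr rfl fun S _ => ?_
  rw [← Finset.mul_sum, mul_div_assoc]
  change _ = ft f S * ft f S
  ring

lemma quad_form (κ u : (Fin n → Bool) → ℝ) :
    ∑ x, ∑ y, u x * u y * κ (xo x y) = ∑ S, ft κ S * (2 ^ n * ft u S) ^ 2 := by
  have h1 : ∀ x y, u x * u y * κ (xo x y) = ∑ S, ft κ S * ((u x * chi S x) * (u y * chi S y)) := by
    intro x y
    rw [inversion κ (xo x y), Finset.mul_sum]
    refine Finset.sum_congr rfl fun S _ => ?_
    rw [chi_xo]; ring
  simp_rw [h1]
  have h2 : ∀ S, 2 ^ n * ft u S = ∑ x, u x * chi S x := by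
    intro S
    rw [ft, mul_div_cancel₀ _ (two_pow_ne)]
  simp_rw [h2]
  have : ∀ x, ∑ y, ∑ S, ft κ S * ((u x * chi S x) * (u y * chi S y)) =
      ∑ S, ft κ S * ((u x * chi S x) * ∑ y, u y * chi S y) := by
    intro x
    rw [Finset.sum_comm]
    refine Finset.sum_congr rfl fun S _ => ?_
    rw [Finset.mul_sum, Finset.mul_sum]
  simp_rw [this]
  rw [Finset.sum_comm]
  refine Finset.sum_congr rfl fun S _ => ?_
  rw [← Finset.mul_sum, ← Finset.sum_mul, sq]

/-- If all Fourier coefficients of `κ` are at least `-ε`, the quadratic form of `κ` is bounded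
below. -/
lemma quad_lower (κ u : (Fin n → Bool) → ℝ) (ε : ℝ) (h : ∀ S, -ε ≤ ft κ S) :
    -(ε * 2 ^ n * ∑ x, u x ^ 2) ≤ ∑ x, ∑ y, u x * u y * κ (xo x y) := by
  rw [quad_form]
  have h1 : ∑ x, u x ^ 2 = 2 ^ n * ∑ S, ft u S ^ 2 := by
    rw [parseval, mul_div_cancel₀ _ two_pow_ne]
  rw [h1, Finset.mul_sum, Finset.mul_sum, ← Finset.sum_neg_distrib]
  refine Finset.sum_le_sum fun S _ => ?_
  have h2 := h S
  have h3 : 0 ≤ (2 ^ n * ft u S) ^ 2 := sq_nonneg _
  nlinarith [mul_le_mul_of_nonneg_right h2 h3]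

/-- The product formula for Fourier coefficients. -/
lemma ft_mul (f g : (Fin n → Bool) → ℝ) (T : Finset (Fin n)) :
    ft (fun x => f x * g x) T = ∑ S, ft f S * ft g (symmDiff S T) := by
  have h1 : ∀ x, f x * g x * chi T x = ∑ S, ft f S * (g x * chi (symmDiff S T) x) := by
    intro x
    conv_lhs => rw [inversion f x]
    rw [Finset.sum_mul, Finset.sum_mul]
    refine Finset.sum_congr rfl fun S _ => ?_
    rw [← chi_mul]; ring
  rw [ft]
  simp_rw [h1]
  rw [Finset.sum_comm, Finset.sum_div]
  refine Finset.sum_congr rfl fun S _ => ?_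
  rw [← Finset.mul_sum, mul_div_assoc]
  rfl

/-- `f` has degree at most `D`. -/
def Deg (D : ℕ) (f : (Fin n → Bool) → ℝ) : Prop := ∀ T, D < T.card → ft f T = 0

lemma Deg.mul {D E : ℕ} {f g : (Fin n → Bool) → ℝ} (hf : Deg D f) (hg : Deg E g) :
    Deg (D + E) (fun x => f x * g x) := by
  intro T hT
  rw [ft_mul]
  refine Finset.sum_eq_zero fun S _ => ?_
  by_cases hS : D < S.card
  · rw [hf S hS, zero_mul]
  · have h1 : T.card ≤ (symmDiff S T).card + S.card := by
      have : T ⊆ symmDiff S T ∪ S := by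
        intro i hi
        rw [Finset.mem_union, Finset.mem_symmDiff]
        by_cases h : i ∈ S
        · right; exact h
        · left; right; exact ⟨hi, h⟩
      exact (Finset.card_le_card this).trans (Finset.card_union_le _ _)
    rw [hg _ (by omega), mul_zero]

end

end Pool.Agent.H14.KPoint
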