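import Mathlib

/-!
# `k`-point semidefinite bounds for codes: definitions
-/

namespace Pool.Agent.H14.KPoint

open Finset

/-- `S` is a code for the relation `ok`: any two distinct elements of `S` are in relation. -/
def IsCode {V : Type*} (ok : V → V → Prop) (S : Finset V) : Prop :=
  ∀ x ∈ S, ∀ y ∈ S, x ≠ y → ok x y

/-- Two unit vectors whose inner product has absolute value at most `μ`. A code for this relation
is a finite set of unit vectors of coherence at most `μ`. -/
def Incoherent (𝕜 : Type) [RCLike 𝕜] (n : ℕ) (μ : ℝ)
    (x y : Metric.sphere (0 : EuclideanSpace 𝕜 (Fin n)) 1) : Prop :=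
  ‖inner 𝕜 (x : EuclideanSpace 𝕜 (Fin n)) (y : EuclideanSpace 𝕜 (Fin n))‖ ≤ μ

/-- A feasible point of the `k`-point moment relaxation for the codes of a relation `ok`: the
number `y S` is the pseudo-probability that `S` is contained in the random code. -/
structure Moments {V : Type*} [DecidableEq V] (ok : V → V → Prop) (k : ℕ) (y : Finset V → ℝ) :
    Prop where
  /-- normalisation -/
  empty : y ∅ = 1
  /-- pseudo-probabilities are nonnegative -/
  nonneg : ∀ S, 0 ≤ y S
  /-- only codes have positive pseudo-probability -/
  code : ∀ S, ¬ IsCode ok S → y S = 0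
  /-- for every set `T` of at most `k - 2` points, the moment matrix indexed by the finite sets
  with at most one element outside of `T` is positive semidefinite -/
  psd : ∀ T : Finset V, T.card + 2 ≤ k → ∀ F : Finset (Finset V), (∀ A ∈ F, (A \ T).card ≤ 1) →
    ∀ c : Finset V → ℝ, 0 ≤ ∑ A ∈ F, ∑ B ∈ F, c A * c B * y (A ∪ B)

/-- Given kernels `T Q` on `V ∪ {none}`, one for each finite set `Q` of points, the sum of
`T Q a b` over all sets `Q` of at most `k - 2` points and all `a, b` in `V ∪ {none}` with
`Q ∪ {a, b} = S` (`none` stands for no point). -/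
noncomputable def coefficient {V : Type*} [DecidableEq V]
    (T : Finset V → Option V → Option V → ℝ) (k : ℕ) (S : Finset V) : ℝ :=
  ∑ Q ∈ S.powerset with Q.card + 2 ≤ k, ∑ a ∈ insertNone S, ∑ b ∈ insertNone S,
    if Q ∪ (a.toFinset ∪ b.toFinset) = S then T Q a b else 0

/-- A `k`-point certificate with value `B` for the codes of the relation `ok`. -/
structure Certificate {V : Type*} [DecidableEq V] (ok : V → V → Prop) (k : ℕ) (B : ℝ) where
  /-- the kernels -/
  T : Finset V → Option V → Option V → ℝ
  /-- the kernels are symmetric -/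
  symm : ∀ Q a b, T Q a b = T Q b a
  /-- the kernels are positive semidefinite -/
  psd : ∀ Q : Finset V, IsCode ok Q → Q.card + 2 ≤ k →
    ∀ (F : Finset (Option V)) (c : Option V → ℝ), 0 ≤ ∑ a ∈ F, ∑ b ∈ F, c a * c b * T Q a b
  /-- the value -/
  base : coefficient T k ∅ ≤ B
  /-- the inequalities for codes with at most `k` points -/
  coeff : ∀ S : Finset V, IsCode ok S → S.Nonempty → S.card ≤ k →
    (if S.card = 1 then (1 : ℝ) else 0) + coefficient T k S ≤ 0

end Pool.Agent.H14.KPoint
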