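import Pool.Agent.H14.KPoint.Bonami

/-!
# The even half of the cube
-/

namespace Pool.Agent.H14.KPoint

open Finset

noncomputable section

variable {n : ℕ}

/-- Twice the indicator function of the even half of the cube. -/
def om (x : Fin n → Bool) : ℝ := 1 + chi Finset.univ x

lemma chi_eq_or (S : Finset (Fin n)) (x : Fin n → Bool) : chi S x = 1 ∨ chi S x = -1 := by
  have := chi_mul_self S x
  have h : (chi S x - 1) * (chi S x + 1) = 0 := by linarith
  rcases mul_eq_zero.1 h with h | h
  · left; linarith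
  · right; linarith

lemma om_nonneg (x : Fin n → Bool) : 0 ≤ om x := by
  rcases chi_eq_or Finset.univ x with h | h <;> rw [om, h] <;> norm_num

lemma om_le (x : Fin n → Bool) : om x ≤ 2 := by
  rcases chi_eq_or Finset.univ x with h | h <;> rw [om, h] <;> norm_num

lemma om_sq (x : Fin n → Bool) : om x ^ 2 = 2 * om x := by
  rcases chi_eq_or Finset.univ x with h | h <;> rw [om, h] <;> norm_num

/-- The average over the even half. -/
def evE (f : (Fin n → Bool) → ℝ) : ℝ := avg (fun x => f x * om x)

lemma evE_eq (f : (Fin n → Bool) → ℝ) : evE f = avg f + ft f Finset.univ := by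
  have : (fun x => f x * om x) = fun x => f x + f x * chi Finset.univ x := by
    funext x; rw [om]; ring
  rw [evE, this, avg_add]
  rfl

lemma evE_deg {D : ℕ} {f : (Fin n → Bool) → ℝ} (hf : Deg D f) (hD : D < n) :
    evE f = avg f := by
  rw [evE_eq, hf _ (by simpa using hD), add_zero]

lemma evE_mono {f g : (Fin n → Bool) → ℝ} (h : ∀ x, f x ≤ g x) : evE f ≤ evE g := by
  refine div_le_div_of_nonneg_right (Finset.sum_le_sum fun x _ => ?_) (by positivity)
  exact mul_le_mul_of_nonneg_right (h x) (om_nonneg x)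

lemma evE_nonneg {f : (Fin n → Bool) → ℝ} (h : ∀ x, 0 ≤ f x) : 0 ≤ evE f :=
  avg_nonneg fun x => mul_nonneg (h x) (om_nonneg x)

lemma evE_add (f g : (Fin n → Bool) → ℝ) : evE (fun x => f x + g x) = evE f + evE g := by
  simp only [evE, add_mul]
  exact avg_add _ _

lemma evE_sub (f g : (Fin n → Bool) → ℝ) : evE (fun x => f x - g x) = evE f - evE g := by
  simp only [evE, sub_mul, avg, Finset.sum_sub_distrib, sub_div]

lemma evE_mul_left (c : ℝ) (f : (Fin n → Bool) → ℝ) : evE (fun x => c * f x) = c * evE f := by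
  simp only [evE, mul_assoc]
  exact avg_mul_left _ _

lemma evE_cs (f g : (Fin n → Bool) → ℝ) :
    evE (fun x => f x * g x) ^ 2 ≤ evE (fun x => f x ^ 2) * evE (fun x => g x ^ 2) := by
  have h := avg_cs (fun x => f x * Real.sqrt (om x)) (fun x => g x * Real.sqrt (om x))
  have h1 : ∀ x : Fin n → Bool, Real.sqrt (om x) * Real.sqrt (om x) = om x :=
    fun x => Real.mul_self_sqrt (om_nonneg x)
  have e1 : (fun x => f x * Real.sqrt (om x) * (g x * Real.sqrt (om x))) =
      fun x => f x * g x * om x := by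
    funext x
    linear_combination (f x * g x) * h1 x
  have e2 : (fun x => (f x * Real.sqrt (om x)) ^ 2) = fun x => f x ^ 2 * om x := by
    funext x
    linear_combination (f x ^ 2) * h1 x
  have e3 : (fun x => (g x * Real.sqrt (om x)) ^ 2) = fun x => g x ^ 2 * om x := by
    funext x
    linear_combination (g x ^ 2) * h1 x
  rw [e1, e2, e3] at h
  exact h

/-- On the even half, the second moment of a polynomial of low degree is controlled by its first
absolute moment. -/
lemma second_le_first {K : ℕ} {f : (Fin n → Bool) → ℝ} (hf : Deg K f) (hK : 4 * K < n) :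
    evE (fun x => f x ^ 2) ≤ 9 ^ K * evE (fun x => |f x|) ^ 2 := by
  have hd2 : Deg (K + K) (fun x => f x * f x) := hf.mul hf
  have hd4 : Deg ((K + K) + (K + K)) (fun x => (f x * f x) * (f x * f x)) := hd2.mul hd2
  have h2 : evE (fun x => f x ^ 2) = avg (fun x => f x ^ 2) := by
    simp_rw [sq]
    exact evE_deg hd2 (by omega)
  have h4 : evE (fun x => f x ^ 4) = avg (fun x => f x ^ 4) := by
    have : (fun x => f x ^ 4) = fun x => (f x * f x) * (f x * f x) := by
      funext x; ring
    rw [this]
    exact evE_deg hd4 (by omega)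
  have hb : evE (fun x => f x ^ 4) ≤ 9 ^ K * evE (fun x => f x ^ 2) ^ 2 := by
    rw [h2, h4]; exact bonami_deg hf
  have c1 : evE (fun x => f x ^ 2) ^ 2 ≤ evE (fun x => |f x|) * evE (fun x => |f x| ^ 3) := by
    have := evE_cs (fun x => Real.sqrt |f x|) (fun x => Real.sqrt |f x| * |f x|)
    have e1 : (fun x => Real.sqrt |f x| * (Real.sqrt |f x| * |f x|)) = fun x => f x ^ 2 := by
      funext x
      rw [← mul_assoc, Real.mul_self_sqrt (abs_nonneg _), ← sq_abs]; ring
    have e2 : (fun x => Real.sqrt |f x| ^ 2) = fun x => |f x| := by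
      funext x
      rw [Real.sq_sqrt (abs_nonneg _)]
    have e3 : (fun x => (Real.sqrt |f x| * |f x|) ^ 2) = fun x => |f x| ^ 3 := by
      funext x
      rw [mul_pow, Real.sq_sqrt (abs_nonneg _)]; ring
    rw [e1, e2, e3] at this
    exact this
  have c2 : evE (fun x => |f x| ^ 3) ^ 2 ≤
      evE (fun x => f x ^ 2) * evE (fun x => f x ^ 4) := by
    have := evE_cs (fun x => |f x|) (fun x => |f x| ^ 2)
    have e1 : (fun x => |f x| * |f x| ^ 2) = fun x => |f x| ^ 3 := by
      funext x; ring
    have e2 : (fun x => |f x| ^ 2) = fun x => f x ^ 2 := by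
      funext x; rw [sq_abs]
    have e3 : (fun x => (|f x| ^ 2) ^ 2) = fun x => f x ^ 4 := by
      funext x; rw [sq_abs]; ring
    rw [e1, e2, e3] at this
    exact this
  set P := evE (fun x => f x ^ 2)
  set Q := evE (fun x => |f x|)
  set R := evE (fun x => |f x| ^ 3)
  set W := evE (fun x => f x ^ 4)
  have hP : 0 ≤ P := evE_nonneg fun x => sq_nonneg _
  have hQ : 0 ≤ Q := evE_nonneg fun x => abs_nonneg _
  have hR : 0 ≤ R := evE_nonneg fun x => by positivity
  have h9 : (0 : ℝ) < 9 ^ K := by positivity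
  rcases hP.eq_or_lt with h0 | h0
  · rw [← h0]; positivity
  · have c3 : P ^ 4 ≤ Q ^ 2 * (P * (9 ^ K * P ^ 2)) := by
      calc P ^ 4 = (P ^ 2) ^ 2 := by ring
        _ ≤ (Q * R) ^ 2 := pow_le_pow_left₀ (by positivity) c1 2
        _ = Q ^ 2 * R ^ 2 := by ring
        _ ≤ Q ^ 2 * (P * (9 ^ K * P ^ 2)) := by
            refine mul_le_mul_of_nonneg_left (c2.trans ?_) (by positivity)
            exact mul_le_mul_of_nonneg_left hb hP
    have c4 : P ^ 3 * P ≤ P ^ 3 * (9 ^ K * Q ^ 2) := by
      calc P ^ 3 * P = P ^ 4 := by ring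
        _ ≤ _ := c3
        _ = _ := by ring
    exact le_of_mul_le_mul_left c4 (by positivity)

/-- The sum of the coordinates. -/
def sm (x : Fin n → Bool) : ℝ := ∑ i, sg (x i)

lemma avg_exp (t : ℝ) : avg (fun x : Fin n → Bool => Real.exp (t * sm x)) = Real.cosh t ^ n := by
  have h1 : ∀ x : Fin n → Bool, Real.exp (t * sm x) = ∏ i, Real.exp (t * sg (x i)) := by
    intro x
    rw [sm, Finset.mul_sum, Real.exp_sum]
  simp only [avg]
  simp_rw [h1]
  have h2 := (Finset.prod_univ_sum (fun _ : Fin n => (Finset.univ : Finset Bool))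
    (fun _ b => Real.exp (t * sg b))).symm
  rw [Fintype.piFinset_univ] at h2
  rw [h2]
  simp only [Fintype.sum_bool, sg_true, sg_false, Finset.prod_const, Finset.card_univ,
    Fintype.card_fin]
  rw [← div_pow, Real.cosh_eq]
  congr 2
  rw [mul_neg, mul_one]
  ring

lemma tail_one (hn : 0 < n) (a : ℝ) (σ : ℝ) (hσ : σ = 1 ∨ σ = -1) (ha : 0 ≤ a) :
    avg (fun x : Fin n → Bool => if a < σ * sm x then (1 : ℝ) else 0) ≤
      Real.exp (-(a ^ 2 / (2 * n))) := by
  have hn' : (0 : ℝ) < n := by exact_mod_cast hn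
  set t : ℝ := a / n with ht
  have ht0 : 0 ≤ t := by positivity
  have h1 : ∀ x : Fin n → Bool, (if a < σ * sm x then (1 : ℝ) else 0) ≤
      Real.exp (-(t * a)) * Real.exp ((t * σ) * sm x) := by
    intro x
    split_ifs with h
    · rw [← Real.exp_add]
      refine Real.one_le_exp ?_
      nlinarith
    · positivity
  have h2 : avg (fun x : Fin n → Bool => if a < σ * sm x then (1 : ℝ) else 0) ≤
      avg (fun x : Fin n → Bool => Real.exp (-(t * a)) * Real.exp ((t * σ) * sm x)) :=
    div_le_div_of_nonneg_right (Finset.sum_le_sum fun x _ => h1 x) (by positivity)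
  refine h2.trans ?_
  rw [avg_mul_left, avg_exp]
  have h3 : Real.cosh (t * σ) = Real.cosh t := by
    rcases hσ with rfl | rfl
    · rw [mul_one]
    · rw [mul_neg, mul_one, Real.cosh_neg]
  rw [h3]
  calc Real.exp (-(t * a)) * Real.cosh t ^ n
      ≤ Real.exp (-(t * a)) * Real.exp (t ^ 2 / 2) ^ n := by
        refine mul_le_mul_of_nonneg_left ?_ (Real.exp_nonneg _)
        exact pow_le_pow_left₀ (Real.cosh_pos t).le (Real.cosh_le_exp_half_sq t) n
    _ = Real.exp (-(a ^ 2 / (2 * n))) := by
        rw [← Real.exp_nat_mul, ← Real.exp_add]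
        congr 1
        rw [ht]
        field_simp
        ring

/-- Indicator of a large coordinate sum. -/
def far (a : ℝ) (x : Fin n → Bool) : ℝ := if a < |sm x| then 1 else 0

lemma evE_far (hn : 0 < n) (a : ℝ) (ha : 0 ≤ a) :
    evE (far (n := n) a) ≤ 4 * Real.exp (-(a ^ 2 / (2 * n))) := by
  have h1 : ∀ x : Fin n → Bool, far a x * om x ≤
      2 * ((if a < 1 * sm x then (1 : ℝ) else 0) + (if a < (-1) * sm x then (1 : ℝ) else 0)) := by
    intro x
    have h2 : far a x ≤
        (if a < 1 * sm x then (1 : ℝ) else 0) + (if a < (-1) * sm x then (1 : ℝ) else 0) := by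
      rw [far]
      rw [one_mul, neg_one_mul]
      by_cases h : a < |sm x|
      · rw [if_pos h]
        rcases lt_abs.1 h with h' | h'
        · rw [if_pos h']
          split_ifs <;> norm_num
        · rw [if_pos h']
          split_ifs <;> norm_num
      · rw [if_neg h]
        split_ifs <;> norm_num
    have h3 : 0 ≤ far a x := by rw [far]; split_ifs <;> norm_num
    have := om_le x
    have h4 := om_nonneg x
    nlinarith
  have h5 : evE (far (n := n) a) ≤ avg (fun x : Fin n → Bool =>
      2 * ((if a < 1 * sm x then (1 : ℝ) else 0) + (if a < (-1) * sm x then (1 : ℝ) else 0))) :=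
    div_le_div_of_nonneg_right (Finset.sum_le_sum fun x _ => h1 x) (by positivity)
  refine h5.trans ?_
  rw [avg_mul_left, avg_add]
  have t1 := tail_one hn a 1 (Or.inl rfl) ha
  have t2 := tail_one hn a (-1) (Or.inr rfl) ha
  linarith

/-- The share of the first absolute moment carried by large coordinate sums. -/
lemma far_mass {K : ℕ} {f : (Fin n → Bool) → ℝ} (hf : Deg K f) (hK : 4 * K < n) (a : ℝ)
    (ha : 0 ≤ a) :
    evE (fun x => |f x| * far a x) ≤
      2 * 3 ^ K * Real.exp (-(a ^ 2 / (4 * n))) * evE (fun x => |f x|) := by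
  have hn : 0 < n := by omega
  have hn' : (0 : ℝ) < n := by exact_mod_cast hn
  have c := evE_cs (fun x => |f x|) (far a)
  have e1 : (fun x => |f x| ^ 2) = fun x => f x ^ 2 := by funext x; rw [sq_abs]
  have e2 : (fun x : Fin n → Bool => far a x ^ 2) = far a := by
    funext x; rw [far]; split_ifs <;> norm_num
  rw [e1, e2] at c
  have h2 := second_le_first hf hK
  have h3 := evE_far hn a ha
  have hQ : 0 ≤ evE (fun x => |f x|) := evE_nonneg fun x => abs_nonneg _
  refine abs_le_of_sq_le_sq' ?_ (by positivity) |>.2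
  refine c.trans ?_
  calc evE (fun x => f x ^ 2) * evE (far a)
      ≤ (9 ^ K * evE (fun x => |f x|) ^ 2) * (4 * Real.exp (-(a ^ 2 / (2 * n)))) := by
        refine mul_le_mul h2 h3 (evE_nonneg fun x => ?_) (by positivity)
        rw [far]; split_ifs <;> norm_num
    _ = (2 * 3 ^ K * Real.exp (-(a ^ 2 / (4 * n))) * evE (fun x => |f x|)) ^ 2 := by
        have e3 : Real.exp (-(a ^ 2 / (2 * n))) = Real.exp (-(a ^ 2 / (4 * n))) ^ 2 := by
          rw [← Real.exp_nat_mul]
          congr 1
          push_cast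
          field_simp
          ring
        have e4 : (9 : ℝ) ^ K = (3 ^ K) ^ 2 := by
          rw [← pow_mul, mul_comm, pow_mul]; norm_num
        rw [e3, e4]; ring

end

end Pool.Agent.H14.KPoint
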