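import Pool.Agent.H14.KPoint.Even

/-!
# Existence of a bounded density on the near-orthogonal region with vanishing low moments
-/

namespace Pool.Agent.H14.KPoint

open Finset

noncomputable section

variable {n : ℕ}

/-- The admissible densities. -/
def Box (a M : ℝ) : Set ((Fin n → Bool) → ℝ) :=
  {h | ∀ x, 0 ≤ h x ∧ h x ≤ M * (1 - far a x)}

lemma box_eq (a M : ℝ) : (Box a M : Set ((Fin n → Bool) → ℝ)) =
    Set.Icc (0 : (Fin n → Bool) → ℝ) (fun x => M * (1 - far a x)) := by
  ext h
  simp only [Box, Set.mem_ofPred_eq, Set.mem_Icc, Pi.le_def, Pi.zero_apply]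
  exact forall_and

/-- The moments up to degree `K`. -/
def mom (K : ℕ) : ((Fin n → Bool) → ℝ) →ₗ[ℝ] (Finset (Fin n) → ℝ) where
  toFun h S := if S.card ≤ K then evE (fun x => h x * chi S x) else 0
  map_add' f g := by
    funext S
    simp only [Pi.add_apply]
    split_ifs
    · rw [← evE_add]
      congr 1
      funext x; ring
    · simp
  map_smul' c f := by
    funext S
    simp only [Pi.smul_apply, smul_eq_mul, RingHom.id_apply]
    split_ifs
    · rw [← evE_mul_left]
      congr 1
      funext x; ring
    · simp

lemma evE_sum {ι : Type*} (s : Finset ι) (f : ι → (Fin n → Bool) → ℝ) :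
    evE (fun x => ∑ i ∈ s, f i x) = ∑ i ∈ s, evE (f i) := by
  simp only [evE, avg, Finset.sum_mul]
  rw [Finset.sum_comm, Finset.sum_div]

lemma deg_sum_chi (K : ℕ) (c : Finset (Fin n) → ℝ) (hc : ∀ S, K < S.card → c S = 0) :
    Deg K (fun x => ∑ S, c S * chi S x) := by
  intro T hT
  rw [ft]
  have h1 : ∀ x : Fin n → Bool, (∑ S, c S * chi S x) * chi T x =
      ∑ S, c S * (chi S x * chi T x) := by
    intro x
    rw [Finset.sum_mul]
    exact Finset.sum_congr rfl fun S _ => by ring
  simp_rw [h1]
  rw [Finset.sum_comm]
  simp_rw [← Finset.mul_sum, sum_chi_mul]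
  rw [Finset.sum_eq_zero, zero_div]
  intro S _
  split_ifs with h
  · subst h; rw [hc S hT, zero_mul]
  · rw [mul_zero]

lemma far_nonneg (a : ℝ) (x : Fin n → Bool) : 0 ≤ far a x := by
  rw [far]; split_ifs <;> norm_num

lemma far_le_one (a : ℝ) (x : Fin n → Bool) : far a x ≤ 1 := by
  rw [far]; split_ifs <;> norm_num

/-- **Existence of the density.** -/
lemma exists_density (K : ℕ) (hK : 4 * K < n) (a η : ℝ) (ha : 0 ≤ a)
    (hη : 2 * 3 ^ K * Real.exp (-(a ^ 2 / (4 * n))) ≤ η) (hη2 : η ≤ 1 / 2) :
    ∃ h ∈ (Box a (1 / (1 - η)) : Set ((Fin n → Bool) → ℝ)),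
      ∀ S : Finset (Fin n), S.card ≤ K →
        evE (fun x => h x * chi S x) = evE (fun x => chi S x) := by
  set M : ℝ := 1 / (1 - η) with hM
  have hη0 : 0 ≤ η := le_trans (by positivity) hη
  have h1η : 0 < 1 - η := by linarith
  have hM0 : 0 < M := by positivity
  set L := mom (n := n) K with hL
  set C : Set (Finset (Fin n) → ℝ) := L '' (Box a M) with hC
  have hcont : Continuous L := LinearMap.continuous_of_finiteDimensional L
  have hcomp : IsCompact C := by
    refine IsCompact.image ?_ hcont
    rw [box_eq]
    exact isCompact_Icc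
  have hconv : Convex ℝ C := by
    refine Convex.linear_image ?_ L
    rw [box_eq]
    exact convex_Icc _ _
  set v : Finset (Fin n) → ℝ := L (fun _ => 1) with hv
  by_cases hmem : v ∈ C
  · obtain ⟨h, hh, he⟩ := hmem
    refine ⟨h, hh, fun S hS => ?_⟩
    have h1 := congrFun he S
    rw [hv, hL] at h1
    change (if S.card ≤ K then evE (fun x => h x * chi S x) else 0) =
      (if S.card ≤ K then evE (fun x => 1 * chi S x) else 0) at h1
    rw [if_pos hS, if_pos hS] at h1
    simpa using h1
  · exfalso
    obtain ⟨f, u, hfv, hfC⟩ := geometric_hahn_banach_point_closed hconv hcomp.isClosed hmem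
    -- the separating polynomial
    set c : Finset (Fin n) → ℝ := fun S => if S.card ≤ K then -f (Pi.single S 1) else 0 with hc
    set p : (Fin n → Bool) → ℝ := fun x => ∑ S, c S * chi S x with hp
    have hpd : Deg K p := by
      refine deg_sum_chi K c fun S hS => ?_
      rw [hc]
      simp only
      rw [if_neg (by omega)]
    have hf : ∀ g : (Fin n → Bool) → ℝ, f (L g) = -evE (fun x => g x * p x) := by
      intro g
      have e1 : L g = ∑ S, L g S • (Pi.single S (1 : ℝ) : Finset (Fin n) → ℝ) := by
        funext T
        simp [Finset.sum_apply, Pi.single_apply]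
      rw [e1, map_sum]
      have e2 : (fun x => g x * p x) = fun x => ∑ S, c S * (g x * chi S x) := by
        funext x
        rw [hp]
        simp only
        rw [Finset.mul_sum]
        exact Finset.sum_congr rfl fun S _ => by ring
      rw [e2, evE_sum, ← Finset.sum_neg_distrib]
      refine Finset.sum_congr rfl fun S _ => ?_
      rw [map_smul, smul_eq_mul, evE_mul_left]
      change (if S.card ≤ K then evE (fun x => g x * chi S x) else 0) * _ = _
      rw [hc]
      simp only
      split_ifs
      · ring
      · ring
    -- the extremal density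
    set g : (Fin n → Bool) → ℝ := fun x => if 0 < p x then M * (1 - far a x) else 0 with hg
    have hgB : g ∈ (Box a M : Set ((Fin n → Bool) → ℝ)) := by
      intro x
      have h1 : 0 ≤ M * (1 - far a x) := mul_nonneg hM0.le (by linarith [far_le_one a x])
      rw [hg]
      simp only
      split_ifs
      · exact ⟨h1, le_rfl⟩
      · exact ⟨le_rfl, h1⟩
    have h1 := hfC (L g) ⟨g, hgB, rfl⟩
    rw [hv, hf] at hfv
    rw [hf] at h1
    have h2 : evE (fun x => g x * p x) < evE (fun x => 1 * p x) := by linarith
    -- contradiction with the mass bound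
    have hmass := far_mass hpd hK a ha
    set D := evE (fun x => |p x| * far a x) with hD
    set T := evE (fun x => |p x|) with hT
    have hT0 : 0 ≤ T := evE_nonneg fun x => abs_nonneg _
    have hDη : D ≤ η * T := hmass.trans (mul_le_mul_of_nonneg_right hη hT0)
    set P := evE (fun x => max (p x) 0 * (1 - far a x)) with hP
    set N := evE (fun x => max (-p x) 0 * (1 - far a x)) with hN
    have hT2 : T = P + N + D := by
      rw [hT, hP, hN, hD, ← evE_add, ← evE_add]
      congr 1
      funext x
      have : |p x| = max (p x) 0 + max (-p x) 0 := by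
        rcases le_total 0 (p x) with h | h
        · rw [abs_of_nonneg h, max_eq_left h, max_eq_right (by linarith)]; ring
        · rw [abs_of_nonpos h, max_eq_right h, max_eq_left (by linarith)]; ring
      rw [this]; ring
    have hgp : evE (fun x => g x * p x) = M * P := by
      rw [hP, ← evE_mul_left]
      congr 1
      funext x
      rw [hg]
      simp only
      split_ifs with h
      · rw [max_eq_left h.le]; ring
      · rw [max_eq_right (not_lt.1 h)]; ring
    have hE : evE (fun x => 1 * p x) ≤ P - N + D := by
      rw [hP, hN, hD, ← evE_sub, ← evE_add]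
      refine evE_mono fun x => ?_
      have h3 : p x = max (p x) 0 - max (-p x) 0 := by
        rcases le_total 0 (p x) with h | h
        · rw [max_eq_left h, max_eq_right (by linarith)]; ring
        · rw [max_eq_right h, max_eq_left (by linarith)]; ring
      have h4 : p x ≤ |p x| := le_abs_self _
      have h5 := far_nonneg a x
      nlinarith [mul_le_mul_of_nonneg_right h4 h5]
    have hP0 : 0 ≤ P := evE_nonneg fun x =>
      mul_nonneg (le_max_right _ _) (by linarith [far_le_one a x])
    have hN0 : 0 ≤ N := evE_nonneg fun x =>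
      mul_nonneg (le_max_right _ _) (by linarith [far_le_one a x])
    rw [hgp] at h2
    -- D (1-η) ≤ η (P+N)
    have h6 : D * (1 - η) ≤ η * (P + N) := by nlinarith
    have h7 : M * P * (1 - η) = P := by
      rw [hM]; field_simp
    have h8 : M * P * (1 - η) < (P - N + D) * (1 - η) :=
      mul_lt_mul_of_pos_right (h2.trans_le hE) h1η
    nlinarith

end

end Pool.Agent.H14.KPoint
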