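import Pool.Agent.H14.KPoint.Pseudo

/-!
# Local moment matrices
-/

namespace Pool.Agent.H14.KPoint

open Finset

noncomputable section

set_option linter.unusedSectionVars false

section Abstract

variable {X : Type*} [Fintype X] [DecidableEq X]

/-- moments of a set, given that `U` is contained in the code and `W` is disjoint from it -/
def ex (y : Finset X → ℝ) (U W S : Finset X) : ℝ :=
  ∑ R ∈ W.powerset, (-1) ^ R.card * y (U ∪ (R ∪ S))

lemma ex_empty (y : Finset X → ℝ) (U S : Finset X) : ex y U ∅ S = y (U ∪ S) := by
  simp [ex]

lemma ex_insert (y : Finset X → ℝ) (U : Finset X) {W : Finset X} {z : X} (hz : z ∉ W)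
    (S : Finset X) : ex y U (insert z W) S = ex y U W S - ex y (insert z U) W S := by
  rw [ex, Finset.sum_powerset_insert hz, ex, ex, sub_eq_add_neg]
  congr 1
  rw [← Finset.sum_neg_distrib]
  refine Finset.sum_congr rfl fun R hR => ?_
  have hzR : z ∉ R := fun h => hz (Finset.mem_powerset.1 hR h)
  rw [Finset.card_insert_of_notMem hzR, pow_succ]
  have : U ∪ (insert z R ∪ S) = insert z U ∪ (R ∪ S) := by
    ext w
    simp only [Finset.mem_union, Finset.mem_insert]
    tauto
  rw [this]
  ring

lemma ex_congr_left (y : Finset X → ℝ) {U U' S S' : Finset X} (W : Finset X)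
    (h : U ∪ S = U' ∪ S') : ex y U W S = ex y U' W S' := by
  rw [ex, ex]
  refine Finset.sum_congr rfl fun R _ => ?_
  have e : U ∪ (R ∪ S) = U' ∪ (R ∪ S') := by
    calc U ∪ (R ∪ S) = R ∪ (U ∪ S) := by
          ext w; simp only [Finset.mem_union]; tauto
      _ = R ∪ (U' ∪ S') := by rw [h]
      _ = U' ∪ (R ∪ S') := by
          ext w; simp only [Finset.mem_union]; tauto
  rw [e]

/-- sets meeting `W` have moment zero -/
lemma ex_eq_zero (y : Finset X → ℝ) (U W S : Finset X) (z : X) (hz : z ∈ W) (hzS : z ∈ S) :
    ex y U W S = 0 := by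
  obtain ⟨W', hW', rfl⟩ : ∃ W', z ∉ W' ∧ insert z W' = W :=
    ⟨W.erase z, Finset.notMem_erase z W, Finset.insert_erase hz⟩
  rw [ex_insert y U hW', sub_eq_zero]
  apply ex_congr_left
  ext w
  simp only [Finset.mem_union, Finset.mem_insert]
  constructor
  · rintro (h | h)
    · exact Or.inl (Or.inr h)
    · exact Or.inr h
  · rintro ((h | h) | h)
    · exact Or.inr (h ▸ hzS)
    · exact Or.inl h
    · exact Or.inr h

/-- The conditioned two-point forms control the local moment matrices. -/
lemma local_psd (y : Finset X → ℝ) (r : ℕ)
    (hy : ∀ U W : Finset X, Disjoint U W → U.card + W.card ≤ r → ∀ g : Option X → ℝ,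
      0 ≤ ∑ a, ∑ b, g a * g b * ex y U W (a.toFinset ∪ b.toFinset)) (T : Finset X) :
    ∀ U W : Finset X, Disjoint U W → Disjoint T U → Disjoint T W →
      U.card + W.card + T.card ≤ r → ∀ c : Finset X → ℝ, (∀ A, c A ≠ 0 → (A \ T).card ≤ 1) →
      0 ≤ ∑ A, ∑ B, c A * c B * ex y U W (A ∪ B) := by
  induction T using Finset.induction_on with
  | empty =>
    intro U W hUW _ _ hr c hc
    have hinj : Function.Injective (fun a : Option X => a.toFinset) := by
      intro a b hab
      simp only at hab
      ext x
      have := congrArg (fun s : Finset X => x ∈ s) hab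
      simpa using this
    have h1 : ∀ A : Finset X, A ∉ (Finset.univ : Finset (Option X)).map ⟨_, hinj⟩ → c A = 0 := by
      intro A hA
      by_contra hne
      have h2 := hc A hne
      rw [Finset.sdiff_empty] at h2
      apply hA
      rw [Finset.mem_map]
      rcases Nat.eq_zero_or_pos A.card with h3 | h3
      · exact ⟨none, Finset.mem_univ _, by simp [Finset.card_eq_zero.1 h3]⟩
      · obtain ⟨x, hx⟩ := Finset.card_eq_one.1 (le_antisymm h2 h3)
        exact ⟨some x, Finset.mem_univ _, by simp [hx]⟩
    have h2 : ∀ f : Finset X → ℝ, ∑ A, c A * f A = ∑ a : Option X, c a.toFinset * f a.toFinset := by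
      intro f
      rw [← Finset.sum_subset (Finset.subset_univ
        ((Finset.univ : Finset (Option X)).map ⟨_, hinj⟩)), Finset.sum_map]
      · rfl
      · intro A _ hA
        rw [h1 A hA, zero_mul]
    have h3 : ∑ A, ∑ B, c A * c B * ex y U W (A ∪ B) =
        ∑ a : Option X, ∑ b : Option X, c a.toFinset * c b.toFinset *
          ex y U W (a.toFinset ∪ b.toFinset) := by
      have h4 : ∀ A, ∑ B, c A * c B * ex y U W (A ∪ B) =
          c A * ∑ B, c B * ex y U W (A ∪ B) := by
        intro A
        rw [Finset.mul_sum]
        exact Finset.sum_congr rfl fun B _ => by ring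
      simp_rw [h4]
      rw [h2]
      refine Finset.sum_congr rfl fun a _ => ?_
      rw [h2, Finset.mul_sum]
      exact Finset.sum_congr rfl fun b _ => by ring
    rw [h3]
    exact hy U W hUW (by simpa using hr) (fun a => c a.toFinset)
  | insert z T hz ih =>
    intro U W hUW hTU hTW hr c hc
    rw [Finset.disjoint_insert_left] at hTU hTW
    rw [Finset.card_insert_of_notMem hz] at hr
    have hsplit : ∑ A, ∑ B, c A * c B * ex y U W (A ∪ B) =
        (∑ A, ∑ B, c A * c B * ex y U (insert z W) (A ∪ B)) +
          ∑ A, ∑ B, c A * c B * ex y (insert z U) W (A ∪ B) := by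
      rw [← Finset.sum_add_distrib]
      refine Finset.sum_congr rfl fun A _ => ?_
      rw [← Finset.sum_add_distrib]
      refine Finset.sum_congr rfl fun B _ => ?_
      rw [ex_insert y U hTW.1]
      ring
    rw [hsplit]
    refine add_nonneg ?_ ?_
    · -- `z` is not in the code
      have h1 : ∑ A, ∑ B, c A * c B * ex y U (insert z W) (A ∪ B) =
          ∑ A, ∑ B, (if z ∈ A then 0 else c A) * (if z ∈ B then 0 else c B) *
            ex y U (insert z W) (A ∪ B) := by
        refine Finset.sum_congr rfl fun A _ => Finset.sum_congr rfl fun B _ => ?_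
        by_cases h2 : z ∈ A ∪ B
        · rw [ex_eq_zero y U (insert z W) (A ∪ B) z (Finset.mem_insert_self _ _) h2]
          ring
        · rw [Finset.mem_union, not_or] at h2
          rw [if_neg h2.1, if_neg h2.2]
      rw [h1]
      refine ih U (insert z W) ?_ hTU.2 ?_ ?_ (fun A => if z ∈ A then 0 else c A) ?_
      · rw [Finset.disjoint_insert_right]
        exact ⟨hTU.1, hUW⟩
      · rw [Finset.disjoint_insert_right]
        exact ⟨hz, hTW.2⟩
      · rw [Finset.card_insert_of_notMem hTW.1]
        omega
      · intro A hA
        by_cases h2 : z ∈ A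
        · simp [h2] at hA
        · simp only [h2, if_false] at hA
          have := hc A hA
          rwa [Finset.sdiff_insert_of_notMem h2] at this
    · -- `z` is in the code
      set c1 : Finset X → ℝ := fun A' => ∑ A with A.erase z = A', c A with hc1
      have h1 : ∑ A, ∑ B, c A * c B * ex y (insert z U) W (A ∪ B) =
          ∑ A, ∑ B, c1 A * c1 B * ex y (insert z U) W (A ∪ B) := by
        have e1 : ∀ f : Finset X → ℝ, ∑ A, c A * f (A.erase z) = ∑ A', c1 A' * f A' := by
          intro f
          rw [← Finset.sum_fiberwise (s := (Finset.univ : Finset (Finset X)))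
            (g := fun A => A.erase z)]
          refine Finset.sum_congr rfl fun A' _ => ?_
          rw [hc1]
          simp only
          rw [Finset.sum_mul]
          refine Finset.sum_congr rfl fun A hA => ?_
          rw [Finset.mem_filter] at hA
          rw [hA.2]
        have e2 : ∀ A B : Finset X, ex y (insert z U) W (A ∪ B) =
            ex y (insert z U) W (A.erase z ∪ B.erase z) := by
          intro A B
          apply ex_congr_left
          ext w
          simp only [Finset.mem_union, Finset.mem_insert, Finset.mem_erase]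
          tauto
        have e3 : ∑ A, ∑ B, c A * c B * ex y (insert z U) W (A ∪ B) =
            ∑ A, c A * ∑ B, c B * ex y (insert z U) W (A.erase z ∪ B.erase z) := by
          refine Finset.sum_congr rfl fun A _ => ?_
          rw [Finset.mul_sum]
          refine Finset.sum_congr rfl fun B _ => ?_
          rw [e2]; ring
        rw [e3, e1 (fun A' => ∑ B, c B * ex y (insert z U) W (A' ∪ B.erase z))]
        refine Finset.sum_congr rfl fun A _ => ?_
        rw [e1 (fun B' => ex y (insert z U) W (A ∪ B')), Finset.mul_sum]
        exact Finset.sum_congr rfl fun B _ => by ring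
      rw [h1]
      refine ih (insert z U) W ?_ ?_ hTW.2 ?_ c1 ?_
      · rw [Finset.disjoint_insert_left]
        exact ⟨hTW.1, hUW⟩
      · rw [Finset.disjoint_insert_right]
        exact ⟨hz, hTU.2⟩
      · rw [Finset.card_insert_of_notMem hTU.1]
        omega
      · intro A' hA'
        obtain ⟨A, hA, hne⟩ := Finset.exists_ne_zero_of_sum_ne_zero hA'
        rw [Finset.mem_filter] at hA
        have h2 := hc A hne
        have h3 : A' \ T = A \ insert z T := by
          rw [← hA.2]
          ext w
          simp only [Finset.mem_sdiff, Finset.mem_erase, Finset.mem_insert]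
          tauto
        rw [h3]
        exact h2

end Abstract

end

end Pool.Agent.H14.KPoint
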