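import Pool.Agent.H14.KPoint.Cond

/-!
# The bound for the unit sphere
-/

namespace Pool.Agent.H14.KPoint

open Finset

noncomputable section

set_option linter.unusedSectionVars false

variable {n : ℕ}

/-- the point of the sphere given by a point of the cube -/
def pt (𝕜 : Type) [RCLike 𝕜] (x : Fin n → Bool) : EuclideanSpace 𝕜 (Fin n) :=
  WithLp.toLp 2 fun i => ((sg (x i) / Real.sqrt n : ℝ) : 𝕜)

lemma inner_pt (𝕜 : Type) [RCLike 𝕜] (hn : 0 < n) (x y : Fin n → Bool) :
    inner 𝕜 (pt 𝕜 x) (pt 𝕜 y) = ((sm (xo x y) / n : ℝ) : 𝕜) := by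
  have hn' : (0 : ℝ) < n := by exact_mod_cast hn
  rw [PiLp.inner_apply]
  have h1 : ∀ i : Fin n, inner 𝕜 ((pt 𝕜 x) i) ((pt 𝕜 y) i) =
      ((sg (xo x y i) / n : ℝ) : 𝕜) := by
    intro i
    rw [RCLike.inner_apply]
    simp only [pt, RCLike.conj_ofReal]
    rw [← RCLike.ofReal_mul]
    congr 1
    rw [xo, sg_xor]
    have h2 : Real.sqrt n * Real.sqrt n = n := Real.mul_self_sqrt hn'.le
    have h3 : Real.sqrt n ≠ 0 := by positivity
    rw [div_mul_div_comm, h2, mul_comm (sg (y i))]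
  simp_rw [h1]
  rw [← RCLike.ofReal_sum, ← Finset.sum_div]
  rfl

lemma norm_pt (𝕜 : Type) [RCLike 𝕜] (hn : 0 < n) (x : Fin n → Bool) : ‖pt 𝕜 x‖ = 1 := by
  have hn' : (0 : ℝ) < n := by exact_mod_cast hn
  have h1 := inner_pt 𝕜 hn x x
  rw [inner_self_eq_norm_sq_to_K] at h1
  have h2 : sm (xo x x) = n := by
    rw [(xo_eq_false_iff x x).2 rfl]
    simp [sm]
  rw [h2, div_self hn'.ne'] at h1
  have h3 : ‖pt 𝕜 x‖ ^ 2 = 1 := by exact_mod_cast h1
  have h4 : 0 ≤ ‖pt 𝕜 x‖ := norm_nonneg _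
  nlinarith

/-- the embedding of the cube into the sphere -/
def emb (𝕜 : Type) [RCLike 𝕜] (hn : 0 < n) :
    (Fin n → Bool) ↪ Metric.sphere (0 : EuclideanSpace 𝕜 (Fin n)) 1 where
  toFun x := ⟨pt 𝕜 x, by rw [mem_sphere_zero_iff_norm]; exact norm_pt 𝕜 hn x⟩
  inj' x y h := by
    have h1 : pt 𝕜 x = pt 𝕜 y := congrArg Subtype.val h
    have h2 := inner_pt 𝕜 hn x y
    have h3 := inner_pt 𝕜 hn x x
    rw [h1] at h2 h3
    rw [h2] at h3
    have hn' : (0 : ℝ) < n := by exact_mod_cast hn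
    have h4 : sm (xo x y) / n = sm (xo x x) / n := by exact_mod_cast h3
    have h5 : sm (xo x y) = sm (xo x x) := by
      field_simp at h4
      exact h4
    have h6 : sm (xo x x) = n := by
      rw [(xo_eq_false_iff x x).2 rfl]
      simp [sm]
    rw [h6] at h5
    rw [← xo_eq_false_iff]
    by_contra hne
    obtain ⟨i, hi⟩ := Function.ne_iff.1 hne
    have h7 : sm (xo x y) < n := by
      rw [sm]
      calc ∑ j, sg (xo x y j) < ∑ _j : Fin n, (1 : ℝ) := by
            refine Finset.sum_lt_sum (fun j _ => ?_) ⟨i, Finset.mem_univ i, ?_⟩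
            · cases xo x y j <;> simp
            · have : xo x y i = true := by simpa using hi
              rw [this]; norm_num
        _ = n := by simp
    linarith

lemma incoherent_emb (𝕜 : Type) [RCLike 𝕜] (hn : 0 < n) (μ : ℝ) (x y : Fin n → Bool) :
    Incoherent 𝕜 n μ (emb 𝕜 hn x) (emb 𝕜 hn y) ↔ |sm (xo x y)| ≤ μ * n := by
  have hn' : (0 : ℝ) < n := by exact_mod_cast hn
  rw [Incoherent]
  change ‖inner 𝕜 (pt 𝕜 x) (pt 𝕜 y)‖ ≤ μ ↔ _
  rw [inner_pt 𝕜 hn, RCLike.norm_ofReal, abs_div, abs_of_pos hn', div_le_iff₀ hn']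

lemma div_pow_le_choose (j n : ℕ) (h : j ≤ n) : ((n : ℝ) / j) ^ j ≤ (n.choose j : ℝ) := by
  induction j generalizing n with
  | zero => simp
  | succ j ih =>
    obtain ⟨n, rfl⟩ : ∃ n', n = n' + 1 := ⟨n - 1, by omega⟩
    have h1 := ih n (by omega)
    have h2 : ((n + 1 : ℕ) : ℝ) * (n.choose j : ℝ) =
        ((n + 1).choose (j + 1) : ℝ) * ((j + 1 : ℕ) : ℝ) := by
      exact_mod_cast Nat.add_one_mul_choose_eq n j
    have hj : (0 : ℝ) < ((j + 1 : ℕ) : ℝ) := by positivity
    have h3 : ((n + 1).choose (j + 1) : ℝ) =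
        ((n + 1 : ℕ) : ℝ) / ((j + 1 : ℕ) : ℝ) * (n.choose j : ℝ) := by
      field_simp
      linarith
    rw [h3, pow_succ, mul_comm]
    refine mul_le_mul_of_nonneg_left (le_trans ?_ h1) (by positivity)
    rcases Nat.eq_zero_or_pos j with h0 | h0
    · subst h0; simp
    · have hj0 : (0 : ℝ) < (j : ℝ) := by exact_mod_cast h0
      refine pow_le_pow_left₀ (by positivity) ?_ j
      rw [div_le_div_iff₀ hj hj0]
      have hjn : (j : ℝ) ≤ n := by exact_mod_cast (by omega : j ≤ n)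
      push_cast
      nlinarith

/-- Large pseudo-moments on the cube. -/
theorem cube_moments (K : ℕ) (hK : 4 * K < n) (a η : ℝ) (ha : 0 ≤ a) (han : a < n)
    (hη : 2 * 3 ^ K * Real.exp (-(a ^ 2 / (4 * n))) ≤ η) (hη2 : η ≤ 1 / 2) (r : ℕ)
    (hC : (4 : ℝ) ≤ n.choose (K + 1)) (hr : r * (4 * (n.choose (K + 1) : ℝ)) ≤ 2 ^ n) :
    ∃ y : Finset (Fin n → Bool) → ℝ,
      Moments (fun x y : Fin n → Bool => |sm (xo x y)| ≤ a) (r + 2) y ∧
      1 / 2 * (Real.sqrt (n.choose (K + 1) / 4) * (1 - η) ^ r) ≤ ∑ x, y {x} ∧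
      ∀ B, Certificate (fun x y : Fin n → Bool => |sm (xo x y)| ≤ a) (r + 2) B →
        ∑ x, y {x} ≤ B := by
  obtain ⟨h, hbox, hq⟩ := exists_kernel K hK a η ha hη hη2
  have hn : 0 < n := by omega
  have hη0 : 0 ≤ η := le_trans (by positivity) hη
  have h1η : 0 < 1 - η := by linarith
  set M : ℝ := 1 / (1 - η) with hM
  have hM1 : 1 ≤ M := by rw [hM, le_div_iff₀ h1η]; linarith
  have hM2 : M ≤ 2 := by rw [hM, div_le_iff₀ h1η]; linarith
  have hh : ∀ x, 0 ≤ h x := fun x => (hbox x).1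
  have hhM : ∀ x, h x ≤ M := by
    intro x
    have h1 := (hbox x).2
    have h2 := far_nonneg a x
    nlinarith
  have hfar : ∀ x : Fin n → Bool, a < |sm x| → h x = 0 := by
    intro x hx
    have h1 := (hbox x).2
    rw [far, if_pos hx] at h1
    linarith [hh x]
  have h0 : h (fun _ => false) = 0 := by
    apply hfar
    have : sm (fun _ : Fin n => false) = n := by simp [sm]
    rw [this, abs_of_nonneg (by positivity)]
    exact han
  have hc0 : (0 : ℝ) < n.choose (K + 1) := by linarith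
  set s : ℝ := Real.sqrt (4 / n.choose (K + 1)) with hs
  have hs0 : 0 < s := Real.sqrt_pos.2 (by positivity)
  set b : ℝ := Real.sqrt (n.choose (K + 1) / 4) with hb
  have hbs : b * s = 1 := by
    rw [hs, hb, ← Real.sqrt_mul (by positivity)]
    rw [show ((n.choose (K + 1) : ℝ) / 4) * (4 / n.choose (K + 1)) = 1 by field_simp]
    exact Real.sqrt_one
  have hb0 : 0 < b := Real.sqrt_pos.2 (by positivity)
  have hb1 : 1 ≤ b := by
    rw [hb]; apply Real.one_le_sqrt.2; linarith
  have hb2 : b ^ 2 = n.choose (K + 1) / 4 := Real.sq_sqrt (by positivity)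
  have h2n : (0 : ℝ) < 2 ^ n := by positivity
  set ε : ℝ := s / 2 * 2 ^ n with hε
  have hε0 : 0 < ε := by positivity
  set τ : ℝ := b / 2 ^ n with hτ
  have hτε : τ * ε = 1 / 2 := by
    rw [hτ, hε]
    field_simp
    linarith
  set θ : ℝ := (1 - η) ^ r * τ with hθ
  have hθ0 : 0 ≤ θ := by positivity
  have hτ2 : τ = θ * M ^ r := by
    rw [hθ, hM, one_div, inv_pow]
    field_simp
  have H : Good θ ε M τ r h := ⟨hh, hhM, hM1, hM2, hθ0, hε0.le, h0, hq, hτ2, hτε.le⟩
  set δ : ℝ := τ * (12 * (τ * 2 ^ n) + 4) with hδ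
  have hτb : τ * 2 ^ n = b := by rw [hτ]; field_simp
  have hδr : r * δ ≤ 1 := by
    rw [hδ, hτb, hτ]
    have h1 : (r : ℝ) * (b / 2 ^ n * (12 * b + 4)) = (r * (b * (12 * b + 4))) / 2 ^ n := by ring
    rw [h1, div_le_one h2n]
    refine le_trans ?_ hr
    refine mul_le_mul_of_nonneg_left ?_ (Nat.cast_nonneg r)
    nlinarith
  have e1 : ∀ x : Fin n → Bool, pm θ h {x} = θ * (om x / 2) := by
    intro x
    simp [pm, G]
  have hval : ∑ x : Fin n → Bool, pm θ h {x} = 1 / 2 * (b * (1 - η) ^ r) := by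
    simp_rw [e1]
    rw [← Finset.mul_sum, ← Finset.sum_div, sum_om hn, hθ, ← hτb]
    ring
  refine ⟨pm θ h, H.moments hδ hδr a hfar, hval.symm.le, ?_⟩
  intro B C
  refine duality (by omega) C (pm θ h) H.pm_nonneg (H.moments hδ hδr a hfar).code ?_ ?_
  · simp [pm, G]
  · intro Q _ hQ g
    exact H.psd (by omega) g

section Push

variable {V X : Type} [DecidableEq V] [DecidableEq X] [Fintype X]

/-- transport of moments along an embedding -/
def push (ι : X ↪ V) (y : Finset X → ℝ) (S : Finset V) : ℝ :=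
  if S ⊆ Finset.univ.map ι then y (Finset.univ.filter fun x => ι x ∈ S) else 0

lemma filter_map (ι : X ↪ V) (A : Finset X) :
    (Finset.univ.filter fun x => ι x ∈ A.map ι) = A := by
  ext x
  simp

lemma push_map (ι : X ↪ V) (y : Finset X → ℝ) (A : Finset X) : push ι y (A.map ι) = y A := by
  rw [push, if_pos (Finset.map_subset_map.2 (Finset.subset_univ A)), filter_map]

lemma exists_map (ι : X ↪ V) {S : Finset V} (hS : S ⊆ Finset.univ.map ι) :
    ∃ A : Finset X, A.map ι = S := by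
  obtain ⟨A, _, hA⟩ := Finset.subset_map_iff.1 hS
  exact ⟨A, hA.symm⟩

lemma push_moments (ι : X ↪ V) {ok : V → V → Prop} {k : ℕ} {y : Finset X → ℝ}
    (hy : Moments (fun x z => ok (ι x) (ι z)) k y) : Moments ok k (push ι y) where
  empty := by
    have := push_map ι y ∅
    rw [Finset.map_empty] at this
    rw [this, hy.empty]
  nonneg S := by
    rw [push]
    split_ifs
    · exact hy.nonneg _
    · exact le_rfl
  code S hS := by
    by_cases h : S ⊆ Finset.univ.map ι
    · obtain ⟨A, rfl⟩ := exists_map ι h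
      rw [push_map]
      exact hy.code A (fun e => hS ((isCode_map ι A).2 e))
    · rw [push, if_neg h]
  psd T hT F hF c := by
    have hT' : (Finset.univ.filter fun x => ι x ∈ T).card ≤ T.card := by
      rw [← Finset.card_map ι]
      apply Finset.card_le_card
      intro v hv
      obtain ⟨x, hx, rfl⟩ := Finset.mem_map.1 hv
      exact (Finset.mem_filter.1 hx).2
    have h1 := hy.psd (Finset.univ.filter fun x => ι x ∈ T) (by omega)
      (Finset.univ.filter fun A : Finset X => A.map ι ∈ F) (by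
        intro A hA
        rw [Finset.mem_filter] at hA
        have h2 := hF _ hA.2
        rw [← Finset.card_map ι]
        refine le_trans (Finset.card_le_card ?_) h2
        intro v hv
        obtain ⟨x, hx, rfl⟩ := Finset.mem_map.1 hv
        rw [Finset.mem_sdiff, Finset.mem_filter] at hx
        rw [Finset.mem_sdiff]
        exact ⟨Finset.mem_map_of_mem ι hx.1, fun e => hx.2 ⟨Finset.mem_univ _, e⟩⟩)
      (fun A => c (A.map ι))
    have h3 : ∀ f : Finset V → ℝ, (∀ S, ¬ S ⊆ Finset.univ.map ι → f S = 0) →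
        ∑ S ∈ F, f S = ∑ A : Finset X with A.map ι ∈ F, f (A.map ι) := by
      intro f hf
      symm
      refine Finset.sum_bij_ne_zero (fun A _ _ => A.map ι) ?_ ?_ ?_ ?_
      · intro A hA _
        exact (Finset.mem_filter.1 hA).2
      · intro A _ _ A' _ _ e
        exact Finset.map_injective ι e
      · intro S hS hne
        have h4 : S ⊆ Finset.univ.map ι := by
          by_contra h5
          exact hne (hf S h5)
        obtain ⟨A, rfl⟩ := exists_map ι h4
        exact ⟨A, Finset.mem_filter.2 ⟨Finset.mem_univ _, hS⟩, hne, rfl⟩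
      · intro A _ _
        rfl
    have hz : ∀ A B : Finset V, ¬ A ⊆ Finset.univ.map ι → push ι y (A ∪ B) = 0 := by
      intro A B hA
      rw [push, if_neg]
      intro e
      exact hA (le_trans Finset.subset_union_left e)
    rw [h3 (fun A => ∑ B ∈ F, c A * c B * push ι y (A ∪ B))]
    · refine le_trans h1 (le_of_eq ?_)
      refine Finset.sum_congr rfl fun A _ => ?_
      rw [h3 (fun B => c (A.map ι) * c B * push ι y (A.map ι ∪ B))]
      · refine Finset.sum_congr rfl fun B _ => ?_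
        rw [← Finset.map_union, push_map]
      · intro B hB
        rw [Finset.union_comm, hz B _ hB, mul_zero]
    · intro A hA
      refine Finset.sum_eq_zero fun B _ => ?_
      rw [hz A B hA, mul_zero]

end Push

/-- codes are feasible points -/
lemma moments_of_code {V : Type*} [DecidableEq V] {ok : V → V → Prop} (k : ℕ) (D : Finset V)
    (hD : IsCode ok D) : Moments ok k (fun S => if S ⊆ D then 1 else 0) where
  empty := by simp
  nonneg S := by split_ifs <;> norm_num
  code S hS := by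
    rw [if_neg]
    intro h
    exact hS fun x hx y hy hxy => hD x (h hx) y (h hy) hxy
  psd T _ F _ c := by
    have h1 : ∑ A ∈ F, ∑ B ∈ F, c A * c B * (if A ∪ B ⊆ D then (1 : ℝ) else 0) =
        (∑ A ∈ F, c A * (if A ⊆ D then 1 else 0)) * ∑ B ∈ F, c B * (if B ⊆ D then 1 else 0) := by
      rw [Finset.sum_mul_sum]
      refine Finset.sum_congr rfl fun A _ => Finset.sum_congr rfl fun B _ => ?_
      by_cases hA : A ⊆ D
      · by_cases hB : B ⊆ D
        · rw [if_pos hA, if_pos hB, if_pos (Finset.union_subset hA hB)]; ring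
        · rw [if_neg hB, if_neg (fun e => hB (le_trans Finset.subset_union_right e))]; ring
      · rw [if_neg hA, if_neg (fun e => hA (le_trans Finset.subset_union_left e))]; ring
    rw [h1]
    exact mul_self_nonneg _

/-- The bounds for the relaxation and for certificates on the sphere. -/
theorem sphere_bound (𝕜 : Type) [RCLike 𝕜] (n : ℕ) (μ : ℝ) (hμ0 : 0 < μ) (hμ : μ ≤ 1 / 2)
    (hm : 64 ≤ n * μ ^ 2) (k : ℕ) (hk : 2 ≤ k) (hk2 : (k : ℝ) ≤ Real.exp (n * μ ^ 2 / 8)) :
    ∃ (y : Finset (Metric.sphere (0 : EuclideanSpace 𝕜 (Fin n)) 1) → ℝ)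
      (W : Finset (Metric.sphere (0 : EuclideanSpace 𝕜 (Fin n)) 1)),
      Moments (Incoherent 𝕜 n μ) k y ∧ (∀ S, ¬ S ⊆ W → y S = 0) ∧
      Real.exp (n * μ ^ 2 / 16 * Real.log (2 / μ)) ≤ ∑ x ∈ W, y {x} ∧
      ∀ B, Certificate (Incoherent 𝕜 n μ) k B →
        Real.exp (n * μ ^ 2 / 16 * Real.log (2 / μ)) ≤ B := by
  have hn : 0 < n := by
    rcases Nat.eq_zero_or_pos n with h | h
    · subst h; norm_num at hm
    · exact h
  have hn' : (0 : ℝ) < n := by exact_mod_cast hn
  have hμ2 : μ ^ 2 ≤ 1 / 4 := by nlinarith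
  have hmn : (n : ℝ) * μ ^ 2 ≤ n / 4 := by nlinarith
  set m : ℝ := n * μ ^ 2 with hmdef
  -- the degree
  set K : ℕ := ⌊m / 16⌋₊ with hK
  have hK1 : (K : ℝ) ≤ m / 16 := Nat.floor_le (by positivity)
  have hK2 : m / 16 < K + 1 := Nat.lt_floor_add_one _
  have hK3 : (K : ℝ) + 1 ≤ m / 8 := by linarith
  have hK4 : 4 * K < n := by
    have : (4 * K : ℝ) < n := by linarith
    exact_mod_cast this
  -- the error
  set η : ℝ := 2 * 3 ^ K * Real.exp (-((μ * n) ^ 2 / (4 * n))) with hη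
  have e1 : (μ * n) ^ 2 / (4 * n) = m / 4 := by
    rw [hmdef]; field_simp
  have h3K : (3 : ℝ) ^ K ≤ Real.exp (1.12 * (m / 16)) := by
    have h3 : (3 : ℝ) ≤ Real.exp 1.12 := by
      have h8 : Real.exp 1.12 = (Real.exp (1.12 / 8)) ^ 8 := by
        rw [← Real.exp_nat_mul]; norm_num
      rw [h8]
      have h10 := Real.quadratic_le_exp_of_nonneg (x := (1.12 / 8 : ℝ)) (by norm_num)
      have h11 : (1 + 1.12 / 8 + (1.12 / 8) ^ 2 / 2 : ℝ) ^ 8 ≤ (Real.exp (1.12 / 8)) ^ 8 :=
        pow_le_pow_left₀ (by norm_num) h10 8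
      refine le_trans ?_ h11
      norm_num
    calc (3 : ℝ) ^ K ≤ (Real.exp 1.12) ^ K := pow_le_pow_left₀ (by norm_num) h3 K
      _ = Real.exp (K * 1.12) := by rw [Real.exp_nat_mul]
      _ ≤ Real.exp (1.12 * (m / 16)) := by
          apply Real.exp_le_exp.2; linarith
  have h4e : (4 : ℝ) ≤ Real.exp (0.05 * m) := by
    have h1 : Real.exp 3.2 ≤ Real.exp (0.05 * m) := Real.exp_le_exp.2 (by linarith)
    have h2 := Real.add_one_le_exp (3.2 : ℝ)
    linarith
  have hη1 : η ≤ 1 / 2 * Real.exp (-(m / 8)) := by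
    rw [hη, e1]
    have h5 : Real.exp (1.12 * (m / 16)) * Real.exp (-(m / 4)) * Real.exp (0.05 * m) ≤
        Real.exp (-(m / 8)) := by
      rw [← Real.exp_add, ← Real.exp_add]
      apply Real.exp_le_exp.2
      linarith
    have h6 : 0 < Real.exp (-(m / 4)) := Real.exp_pos _
    have h7 : 0 < Real.exp (1.12 * (m / 16)) := Real.exp_pos _
    have h8 : (3 : ℝ) ^ K * Real.exp (-(m / 4)) ≤
        Real.exp (1.12 * (m / 16)) * Real.exp (-(m / 4)) :=
      mul_le_mul_of_nonneg_right h3K h6.le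
    have h9 : Real.exp (1.12 * (m / 16)) * Real.exp (-(m / 4)) * 4 ≤
        Real.exp (1.12 * (m / 16)) * Real.exp (-(m / 4)) * Real.exp (0.05 * m) :=
      mul_le_mul_of_nonneg_left h4e (by positivity)
    linarith
  have hη0 : 0 ≤ η := by positivity
  have hexp1 : Real.exp (-(m / 8)) ≤ 1 := Real.exp_le_one_iff.2 (by linarith)
  have hη2 : η ≤ 1 / 2 := by linarith
  -- numerical estimates
  have hpow : 1 / 2 ≤ (1 - η) ^ (k - 2) := by
    have h1 := one_add_mul_le_pow (a := -η) (by linarith) (k - 2)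
    have h2 : ((k - 2 : ℕ) : ℝ) ≤ k := by exact_mod_cast Nat.sub_le k 2
    have h3 : (k : ℝ) * η ≤ 1 / 2 := by
      calc (k : ℝ) * η ≤ Real.exp (m / 8) * (1 / 2 * Real.exp (-(m / 8))) :=
            mul_le_mul hk2 hη1 hη0 (Real.exp_pos _).le
        _ = 1 / 2 * (Real.exp (m / 8) * Real.exp (-(m / 8))) := by ring
        _ = 1 / 2 := by rw [← Real.exp_add]; simp
    have h4 : ((k - 2 : ℕ) : ℝ) * η ≤ k * η := mul_le_mul_of_nonneg_right h2 hη0
    have h5 : (1 + -η) ^ (k - 2) = (1 - η) ^ (k - 2) := by ring_nf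
    rw [h5] at h1
    linarith
  have hKpos : (0 : ℝ) < (K : ℝ) + 1 := by positivity
  have hchoose : (12 / μ ^ 2) ^ (m / 16) ≤ (n.choose (K + 1) : ℝ) := by
    have h1 : ((n : ℝ) / ((K + 1 : ℕ) : ℝ)) ^ (K + 1) ≤ (n.choose (K + 1) : ℝ) :=
      div_pow_le_choose (K + 1) n (by omega)
    refine le_trans ?_ h1
    have h2 : 12 / μ ^ 2 ≤ (n : ℝ) / ((K + 1 : ℕ) : ℝ) := by
      push_cast
      rw [div_le_div_iff₀ (by positivity) hKpos]
      have : 12 * ((K : ℝ) + 1) ≤ m := by linarith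
      rw [hmdef] at this
      exact this
    have h3 : (1 : ℝ) ≤ 12 / μ ^ 2 := by
      rw [le_div_iff₀ (by positivity)]; nlinarith
    calc (12 / μ ^ 2) ^ (m / 16) ≤ (12 / μ ^ 2) ^ ((K + 1 : ℕ) : ℝ) := by
          apply Real.rpow_le_rpow_of_exponent_le h3
          push_cast; linarith
      _ = (12 / μ ^ 2) ^ (K + 1) := by rw [Real.rpow_natCast]
      _ ≤ ((n : ℝ) / ((K + 1 : ℕ) : ℝ)) ^ (K + 1) :=
          pow_le_pow_left₀ (by positivity) h2 _
  have hlogμ : Real.log (2 / μ) = Real.log 2 - Real.log μ :=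
    Real.log_div (by norm_num) hμ0.ne'
  have hrpow : (12 / μ ^ 2 : ℝ) ^ (m / 16) = Real.exp (m / 16 * Real.log (2 / μ)) ^ 2 *
      Real.exp (m / 16 * Real.log 3) := by
    rw [Real.rpow_def_of_pos (by positivity), ← Real.exp_nat_mul, ← Real.exp_add]
    congr 1
    have h1 : Real.log (12 / μ ^ 2) = Real.log 3 + 2 * Real.log 2 - 2 * Real.log μ := by
      rw [Real.log_div (by norm_num) (by positivity), Real.log_pow,
        show (12 : ℝ) = 3 * 2 ^ 2 by norm_num, Real.log_mul (by norm_num) (by norm_num),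
        Real.log_pow]
      push_cast; ring
    rw [h1, hlogμ]
    push_cast; ring
  have h81 : (81 : ℝ) ≤ Real.exp (m / 16 * Real.log 3) := by
    have h1 : Real.exp (4 * Real.log 3) ≤ Real.exp (m / 16 * Real.log 3) := by
      apply Real.exp_le_exp.2
      apply mul_le_mul_of_nonneg_right _ (Real.log_nonneg (by norm_num))
      linarith
    have h2 : Real.exp (4 * Real.log 3) = 81 := by
      rw [show (4 : ℝ) * Real.log 3 = ((4 : ℕ) : ℝ) * Real.log 3 by norm_num, Real.exp_nat_mul,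
        Real.exp_log (by norm_num)]
      norm_num
    linarith
  rw [hrpow] at hchoose
  set E : ℝ := Real.exp (m / 16 * Real.log (2 / μ)) with hE
  have hE0 : 0 < E := Real.exp_pos _
  have hE1 : 1 ≤ E := by
    rw [hE]
    apply Real.one_le_exp
    apply mul_nonneg (by positivity)
    apply Real.log_nonneg
    rw [le_div_iff₀ hμ0]
    linarith
  have hchoose2 : 81 * E ^ 2 ≤ (n.choose (K + 1) : ℝ) := by
    have h1 : E ^ 2 * 81 ≤ E ^ 2 * Real.exp (m / 16 * Real.log 3) :=
      mul_le_mul_of_nonneg_left h81 (by positivity)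
    linarith
  have hC4 : (4 : ℝ) ≤ n.choose (K + 1) := by nlinarith
  have hsq : 4 * E ≤ Real.sqrt (n.choose (K + 1) / 4) := by
    apply Real.le_sqrt_of_sq_le
    rw [mul_pow]
    nlinarith [sq_nonneg E]
  -- the number of points is much larger
  have hbig : ((k - 2 : ℕ) : ℝ) * (4 * (n.choose (K + 1) : ℝ)) ≤ 2 ^ n := by
    have hKn : K + 1 ≤ n := by omega
    have h1 : (n.choose (K + 1) : ℝ) * (1 / 16) ^ (K + 1) ≤ (17 / 16) ^ n := by
      have h2 := add_pow (1 / 16 : ℝ) 1 n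
      have h3 : (1 / 16 : ℝ) + 1 = 17 / 16 := by norm_num
      rw [h3] at h2
      simp only [one_pow, mul_one] at h2
      rw [h2]
      have h4 := Finset.single_le_sum (f := fun i => (1 / 16 : ℝ) ^ i *
        (n.choose i : ℝ)) (fun i _ => by positivity)
        (Finset.mem_range.2 (by omega : K + 1 < n + 1))
      refine le_trans (le_of_eq ?_) h4
      ring
    have h5 : (n.choose (K + 1) : ℝ) ≤ 16 ^ (K + 1) * (17 / 16) ^ n := by
      have h6 : (16 : ℝ) ^ (K + 1) * (1 / 16) ^ (K + 1) = 1 := by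
        rw [← mul_pow]; norm_num
      calc (n.choose (K + 1) : ℝ) = 16 ^ (K + 1) * ((n.choose (K + 1) : ℝ) * (1 / 16) ^ (K + 1)) := by
            rw [mul_left_comm, h6, mul_one]
        _ ≤ 16 ^ (K + 1) * (17 / 16) ^ n := mul_le_mul_of_nonneg_left h1 (by positivity)
    have hexp16 : (16 : ℝ) ≤ Real.exp 3 := by
      have := Real.add_one_le_exp (3 / 8 : ℝ)
      have h8 : Real.exp 3 = (Real.exp (3 / 8)) ^ 8 := by
        rw [← Real.exp_nat_mul]; norm_num
      have h10 := Real.quadratic_le_exp_of_nonneg (x := (3 / 8 : ℝ)) (by norm_num)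
      rw [h8]
      refine le_trans ?_ (pow_le_pow_left₀ (by norm_num) h10 8)
      norm_num
    have h6 : (16 : ℝ) ^ (K + 1) ≤ Real.exp (3 * ((n : ℝ) / 48)) := by
      calc (16 : ℝ) ^ (K + 1) ≤ (Real.exp 3) ^ (K + 1) := pow_le_pow_left₀ (by norm_num) hexp16 _
        _ = Real.exp (((K + 1 : ℕ) : ℝ) * 3) := by rw [Real.exp_nat_mul]
        _ ≤ Real.exp (3 * ((n : ℝ) / 48)) := by
            apply Real.exp_le_exp.2
            push_cast
            linarith
    have h7 : (17 / 16 : ℝ) ^ n ≤ Real.exp ((n : ℝ) / 16) := by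
      have h8 : (17 / 16 : ℝ) ≤ Real.exp (1 / 16) := by
        have := Real.add_one_le_exp (1 / 16 : ℝ)
        linarith
      calc (17 / 16 : ℝ) ^ n ≤ (Real.exp (1 / 16)) ^ n := pow_le_pow_left₀ (by norm_num) h8 n
        _ = Real.exp (n * (1 / 16)) := by rw [Real.exp_nat_mul]
        _ = Real.exp ((n : ℝ) / 16) := by ring_nf
    have h8 : ((k - 2 : ℕ) : ℝ) ≤ Real.exp ((n : ℝ) / 32) := by
      have h9 : ((k - 2 : ℕ) : ℝ) ≤ k := by exact_mod_cast Nat.sub_le k 2
      refine le_trans h9 (le_trans hk2 (Real.exp_le_exp.2 ?_))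
      linarith
    have h10 : (4 : ℝ) ≤ Real.exp ((n : ℝ) / 64) := by
      have h11 := Real.add_one_le_exp ((n : ℝ) / 64)
      linarith
    have h12 : (2 : ℝ) ^ n = Real.exp (n * Real.log 2) := by
      rw [Real.exp_nat_mul, Real.exp_log (by norm_num)]
    have h13 := Real.log_two_gt_d9
    calc ((k - 2 : ℕ) : ℝ) * (4 * (n.choose (K + 1) : ℝ))
        ≤ Real.exp ((n : ℝ) / 32) * (Real.exp ((n : ℝ) / 64) *
            (Real.exp (3 * ((n : ℝ) / 48)) * Real.exp ((n : ℝ) / 16))) := by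
          refine mul_le_mul h8 (mul_le_mul h10 (le_trans h5 ?_) (by positivity)
            (Real.exp_pos _).le) (by positivity) (Real.exp_pos _).le
          exact mul_le_mul h6 h7 (by positivity) (Real.exp_pos _).le
      _ = Real.exp ((n : ℝ) / 32 + ((n : ℝ) / 64 + (3 * ((n : ℝ) / 48) + (n : ℝ) / 16))) := by
          rw [Real.exp_add, Real.exp_add, Real.exp_add]
      _ ≤ Real.exp (n * Real.log 2) := by
          apply Real.exp_le_exp.2
          nlinarith
      _ = 2 ^ n := h12.symm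
  -- conclusion
  obtain ⟨y, hy, hyval, hycert⟩ := cube_moments K hK4 (μ * n) η (by positivity)
    (by nlinarith) le_rfl hη2 (k - 2) hC4 hbig
  have hk22 : k - 2 + 2 = k := by omega
  rw [hk22] at hy hycert
  have e : (fun x y : Fin n → Bool => Incoherent 𝕜 n μ (emb 𝕜 hn x) (emb 𝕜 hn y)) =
      fun x y => |sm (xo x y)| ≤ μ * n := by
    funext x y
    exact propext (incoherent_emb 𝕜 hn μ x y)
  have hval : E ≤ ∑ x, y {x} := by
    refine le_trans ?_ hyval
    calc E = 1 / 2 * (4 * E * (1 / 2)) := by ring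
      _ ≤ 1 / 2 * (Real.sqrt (n.choose (K + 1) / 4) * (1 - η) ^ (k - 2)) := by
          refine mul_le_mul_of_nonneg_left ?_ (by norm_num)
          exact mul_le_mul hsq hpow (by norm_num) (Real.sqrt_nonneg _)
  refine ⟨push (emb 𝕜 hn) y, Finset.univ.map (emb 𝕜 hn), push_moments (emb 𝕜 hn) ?_, ?_, ?_, ?_⟩
  · rw [e]; exact hy
  · intro S hS
    rw [push, if_neg hS]
  · rw [Finset.sum_map]
    refine le_trans hval (le_of_eq ?_)
    refine Finset.sum_congr rfl fun x _ => ?_
    rw [← Finset.map_singleton, push_map]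
  · intro B C
    have C' := C.comap (emb 𝕜 hn)
    rw [e] at C'
    exact le_trans hval (hycert B C')

end

end Pool.Agent.H14.KPoint
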