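import Pool.Agent.H14.KPoint.Sym
import Pool.Agent.H14.KPoint.Cert

/-!
# The pseudo-moments
-/

namespace Pool.Agent.H14.KPoint

open Finset

noncomputable section

variable {n : ℕ}

/-- product of the pair densities -/
def G (h : (Fin n → Bool) → ℝ) (S : Finset (Fin n → Bool)) : ℝ :=
  Real.sqrt (∏ p ∈ S.offDiag, h (xo p.1 p.2))

/-- weight of a point relative to a set -/
def wt (h : (Fin n → Bool) → ℝ) (Q : Finset (Fin n → Bool)) (x : Fin n → Bool) : ℝ :=
  ∏ q ∈ Q, h (xo x q)

lemma G_nonneg (h : (Fin n → Bool) → ℝ) (S : Finset (Fin n → Bool)) : 0 ≤ G h S :=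
  Real.sqrt_nonneg _

lemma G_empty (h : (Fin n → Bool) → ℝ) : G h ∅ = 1 := by simp [G]

lemma G_insert {h : (Fin n → Bool) → ℝ} (hh : ∀ x, 0 ≤ h x) {Q : Finset (Fin n → Bool)}
    {x : Fin n → Bool} (hx : x ∉ Q) : G h (insert x Q) = G h Q * wt h Q x := by
  have hw : 0 ≤ wt h Q x := Finset.prod_nonneg fun _ _ => hh _
  have h1 : ∏ p ∈ (insert x Q).offDiag, h (xo p.1 p.2) =
      (∏ p ∈ Q.offDiag, h (xo p.1 p.2)) * (wt h Q x) ^ 2 := by
    rw [Finset.offDiag_insert hx, Finset.prod_union, Finset.prod_union]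
    · have e1 : ∏ p ∈ ({x} : Finset (Fin n → Bool)) ×ˢ Q, h (xo p.1 p.2) = wt h Q x := by
        rw [Finset.prod_product]
        simp [wt]
      have e2 : ∏ p ∈ Q ×ˢ ({x} : Finset (Fin n → Bool)), h (xo p.1 p.2) = wt h Q x := by
        rw [Finset.prod_product]
        simp only [Finset.prod_singleton, wt]
        exact Finset.prod_congr rfl fun q _ => by rw [xo_comm]
      rw [e1, e2]; ring
    · rw [Finset.disjoint_left]
      rintro ⟨a, b⟩ h1 h2
      rw [Finset.mem_offDiag] at h1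
      rw [Finset.mem_product, Finset.mem_singleton] at h2
      simp only at h1 h2
      exact hx (h2.1 ▸ h1.1)
    · rw [Finset.disjoint_left]
      rintro ⟨a, b⟩ h1 h2
      rw [Finset.mem_product, Finset.mem_singleton] at h2
      rw [Finset.mem_union, Finset.mem_offDiag, Finset.mem_product, Finset.mem_singleton] at h1
      simp only at h1 h2
      rcases h1 with h1 | h1
      · exact hx (h2.2 ▸ h1.2.1)
      · exact hx (h2.2 ▸ h1.2)
  rw [G, h1, Real.sqrt_mul (Finset.prod_nonneg fun _ _ => hh _), Real.sqrt_sq hw]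
  rfl

lemma wt_insert (h : (Fin n → Bool) → ℝ) {Q : Finset (Fin n → Bool)} {x y : Fin n → Bool}
    (hx : x ∉ Q) : wt h (insert x Q) y = h (xo y x) * wt h Q y := by
  rw [wt, Finset.prod_insert hx, wt]

/-- The pseudo-moment of a set of points. -/
def pm (θ : ℝ) (h : (Fin n → Bool) → ℝ) (S : Finset (Fin n → Bool)) : ℝ :=
  (∏ x ∈ S, θ * (om x / 2)) * G h S

/-- the ratio of the pseudo-moments of `insert x Q` and `Q` -/
def tt (θ : ℝ) (h : (Fin n → Bool) → ℝ) (Q : Finset (Fin n → Bool)) (x : Fin n → Bool) : ℝ :=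
  if x ∈ Q then 1 else θ * (om x / 2) * wt h Q x

lemma pm_insert {θ : ℝ} {h : (Fin n → Bool) → ℝ} (hh : ∀ x, 0 ≤ h x)
    (Q : Finset (Fin n → Bool)) (x : Fin n → Bool) :
    pm θ h (insert x Q) = pm θ h Q * tt θ h Q x := by
  by_cases hx : x ∈ Q
  · rw [Finset.insert_eq_of_mem hx, tt, if_pos hx, mul_one]
  · rw [pm, Finset.prod_insert hx, G_insert hh hx, pm, tt, if_neg hx]
    ring

/-- The pair formula for the pseudo-moments. -/
lemma pm_pair {θ : ℝ} {h : (Fin n → Bool) → ℝ} (hh : ∀ x, 0 ≤ h x)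
    (h0 : h (fun _ => false) = 0)
    (Q : Finset (Fin n → Bool)) (x y : Fin n → Bool) :
    pm θ h (insert x (insert y Q)) = pm θ h Q *
      (tt θ h Q x * tt θ h Q y +
        (if x ∈ Q then 0 else tt θ h Q x) * (if y ∈ Q then 0 else tt θ h Q y) *
          (h (xo x y) - 1) + (if x = y ∧ x ∉ Q then tt θ h Q x else 0)) := by
  rw [pm_insert hh, pm_insert hh]
  by_cases hx : x ∈ Q
  · have e1 : tt θ h (insert y Q) x = 1 := by
      rw [tt, if_pos (Finset.mem_insert_of_mem hx)]
    have e2 : tt θ h Q x = 1 := by rw [tt, if_pos hx]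
    have e3 : (if x = y ∧ x ∉ Q then tt θ h Q x else 0) = 0 := if_neg (fun (e : x = y ∧ x ∉ Q) => e.2 hx)
    rw [e1, e3, e2, if_pos hx]
    ring
  · by_cases hy : y ∈ Q
    · have e3 : (if x = y ∧ x ∉ Q then tt θ h Q x else 0) = 0 :=
        if_neg (fun (e : x = y ∧ x ∉ Q) => hx (by rw [e.1]; exact hy))
      have e4 : tt θ h Q y = 1 := by rw [tt, if_pos hy]
      rw [Finset.insert_eq_of_mem hy, if_pos hy, e3, e4]
      ring
    · rw [if_neg hx, if_neg hy]
      by_cases hxy : x = y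
      · subst hxy
        have e1 : tt θ h (insert x Q) x = 1 := by
          rw [tt, if_pos (Finset.mem_insert_self _ _)]
        have e2 : h (xo x x) = 0 := by
          rw [(xo_eq_false_iff x x).2 rfl, h0]
        rw [e1, e2, if_pos ⟨rfl, hx⟩]
        ring
      · have hx' : x ∉ insert y Q := by
          rw [Finset.mem_insert]
          intro e
          rcases e with e | e
          · exact hxy e
          · exact hx e
        have e1 : tt θ h (insert y Q) x = tt θ h Q x * h (xo x y) := by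
          have e5 : tt θ h (insert y Q) x = θ * (om x / 2) * wt h (insert y Q) x := by
            rw [tt, if_neg hx']
          have e6 : tt θ h Q x = θ * (om x / 2) * wt h Q x := by
            rw [tt, if_neg hx]
          rw [e5, e6, wt_insert h hy]
          ring
        have e3 : (if x = y ∧ x ∉ Q then tt θ h Q x else 0) = 0 := if_neg (fun (e : x = y ∧ x ∉ Q) => hxy e.1)
        rw [e1, e3]
        ring

lemma union_toFinset_pair (Q : Finset (Fin n → Bool)) (x y : Fin n → Bool) :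
    Q ∪ ((some x : Option (Fin n → Bool)).toFinset ∪ (some y : Option (Fin n → Bool)).toFinset) =
      insert x (insert y Q) := by
  ext z
  simp only [Option.toFinset_some, Finset.mem_union, Finset.mem_singleton, Finset.mem_insert]
  tauto

lemma union_toFinset_single (Q : Finset (Fin n → Bool)) (x : Fin n → Bool) :
    Q ∪ ((some x : Option (Fin n → Bool)).toFinset ∪ (none : Option (Fin n → Bool)).toFinset) =
      insert x Q ∧
    Q ∪ ((none : Option (Fin n → Bool)).toFinset ∪ (some x : Option (Fin n → Bool)).toFinset) =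
      insert x Q := by
  constructor <;>
  · ext z
    simp only [Option.toFinset_some, Option.toFinset_none, Finset.mem_union,
      Finset.mem_singleton, Finset.mem_insert, Finset.notMem_empty]
    tauto

/-- the part of a test function outside of `Q`, weighted -/
def uu (θ : ℝ) (h : (Fin n → Bool) → ℝ) (Q : Finset (Fin n → Bool))
    (g : Option (Fin n → Bool) → ℝ) (x : Fin n → Bool) : ℝ :=
  if x ∈ Q then 0 else tt θ h Q x * g (some x)

/-- the linear part of the quadratic form -/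
def LL (θ : ℝ) (h : (Fin n → Bool) → ℝ) (Q : Finset (Fin n → Bool))
    (g : Option (Fin n → Bool) → ℝ) : ℝ := g none + ∑ x, tt θ h Q x * g (some x)

/-- the diagonal part of the quadratic form -/
def RR (θ : ℝ) (h : (Fin n → Bool) → ℝ) (Q : Finset (Fin n → Bool))
    (g : Option (Fin n → Bool) → ℝ) : ℝ :=
  ∑ x, if x ∉ Q then tt θ h Q x * g (some x) ^ 2 else 0

/-- the off-diagonal part of the quadratic form -/
def QQ (θ : ℝ) (h : (Fin n → Bool) → ℝ) (Q : Finset (Fin n → Bool))
    (g : Option (Fin n → Bool) → ℝ) : ℝ :=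
  ∑ x, ∑ y, uu θ h Q g x * uu θ h Q g y * (h (xo x y) - 1)

/-- The quadratic form of the moments around a set `Q`. -/
lemma pm_form {θ : ℝ} {h : (Fin n → Bool) → ℝ} (hh : ∀ x, 0 ≤ h x)
    (h0 : h (fun _ => false) = 0) (Q : Finset (Fin n → Bool))
    (g : Option (Fin n → Bool) → ℝ) :
    ∑ a, ∑ b, g a * g b * pm θ h (Q ∪ (a.toFinset ∪ b.toFinset)) =
      pm θ h Q * (LL θ h Q g ^ 2 + (QQ θ h Q g + RR θ h Q g)) := by
  rw [LL, QQ, RR]
  set t : (Fin n → Bool) → ℝ := tt θ h Q with ht
  set u : (Fin n → Bool) → ℝ := uu θ h Q g with hu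
  have hux : ∀ x, u x = if x ∈ Q then 0 else t x * g (some x) := fun x => rfl
  rw [Fintype.sum_option]
  simp_rw [Fintype.sum_option]
  have e0 : Q ∪ ((none : Option (Fin n → Bool)).toFinset ∪
      (none : Option (Fin n → Bool)).toFinset) = Q := by simp
  simp_rw [(union_toFinset_single Q _).1, (union_toFinset_single Q _).2, union_toFinset_pair, e0,
    pm_pair hh h0, pm_insert hh]
  rw [Finset.sum_add_distrib]
  have e1 : ∀ x : Fin n → Bool, ∑ y, g (some x) * g (some y) * (pm θ h Q *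
      (tt θ h Q x * tt θ h Q y + (if x ∈ Q then 0 else tt θ h Q x) *
        (if y ∈ Q then 0 else tt θ h Q y) * (h (xo x y) - 1) +
        (if x = y ∧ x ∉ Q then tt θ h Q x else 0))) =
      pm θ h Q * ((t x * g (some x)) * (∑ y, t y * g (some y)) +
        (∑ y, u x * u y * (h (xo x y) - 1)) + if x ∉ Q then t x * g (some x) ^ 2 else 0) := by
    intro x
    have e2 : (if x ∉ Q then t x * g (some x) ^ 2 else 0) =
        ∑ y, if x = y then (if x ∉ Q then t x * g (some x) * g (some y) else 0) else 0 := by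
      rw [Finset.sum_ite_eq]
      simp only [Finset.mem_univ, if_true]
      split_ifs <;> ring
    rw [e2, Finset.mul_sum, ← Finset.sum_add_distrib, ← Finset.sum_add_distrib, Finset.mul_sum]
    refine Finset.sum_congr rfl fun y _ => ?_
    rw [hux, hux, ← ht]
    by_cases hxQ : x ∈ Q
    · by_cases hyQ : y ∈ Q
      · simp [hxQ, hyQ]; ring
      · simp [hxQ, hyQ]; ring
    · by_cases hyQ : y ∈ Q
      · by_cases hxy : x = y
        · subst hxy; exact absurd hyQ hxQ
        · simp [hxQ, hyQ, hxy]; ring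
      · by_cases hxy : x = y
        · subst hxy; simp [hxQ]; ring
        · simp [hxQ, hyQ, hxy]; ring
  simp_rw [e1]
  rw [← Finset.mul_sum, Finset.sum_add_distrib, Finset.sum_add_distrib, ← Finset.sum_mul]
  have e3 : ∑ x, g none * g (some x) * (pm θ h Q * tt θ h Q x) =
      pm θ h Q * (g none * ∑ x, t x * g (some x)) := by
    rw [Finset.mul_sum, Finset.mul_sum]
    exact Finset.sum_congr rfl fun x _ => by rw [ht]; ring
  have e4 : ∑ x, g (some x) * g none * (pm θ h Q * tt θ h Q x) =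
      pm θ h Q * (g none * ∑ x, t x * g (some x)) := by
    rw [Finset.mul_sum, Finset.mul_sum]
    exact Finset.sum_congr rfl fun x _ => by rw [ht]; ring
  rw [e3, e4]
  ring

/-- The hypotheses on the kernel and on the parameters. -/
structure Good (θ ε M τ : ℝ) (r : ℕ) (h : (Fin n → Bool) → ℝ) : Prop where
  nonneg : ∀ x, 0 ≤ h x
  le : ∀ x, h x ≤ M
  one_le : 1 ≤ M
  le_two : M ≤ 2
  θ_nonneg : 0 ≤ θ
  ε_nonneg : 0 ≤ ε
  zero : h (fun _ => false) = 0
  quad : ∀ u : (Fin n → Bool) → ℝ, (∀ x, chi Finset.univ x ≠ 1 → u x = 0) →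
        -(ε * ∑ x, u x ^ 2) ≤ ∑ x, ∑ y, u x * u y * (h (xo x y) - 1)
  τ_eq : τ = θ * M ^ r
  small : τ * ε ≤ 1 / 2

section

variable {θ ε M τ : ℝ} {r : ℕ} {h : (Fin n → Bool) → ℝ} (H : Good θ ε M τ r h)

include H

lemma Good.pm_nonneg (S : Finset (Fin n → Bool)) : 0 ≤ pm θ h S := by
  refine mul_nonneg (Finset.prod_nonneg fun x _ => ?_) (G_nonneg _ _)
  exact mul_nonneg H.θ_nonneg (div_nonneg (om_nonneg x) (by norm_num))

lemma Good.tt_nonneg (Q : Finset (Fin n → Bool)) (x : Fin n → Bool) : 0 ≤ tt θ h Q x := by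
  rw [tt]
  split_ifs
  · exact zero_le_one
  · exact mul_nonneg (mul_nonneg H.θ_nonneg (div_nonneg (om_nonneg x) (by norm_num)))
      (Finset.prod_nonneg fun _ _ => H.nonneg _)

lemma Good.tt_le {Q : Finset (Fin n → Bool)} (hQ : Q.card ≤ r) {x : Fin n → Bool}
    (hx : x ∉ Q) : tt θ h Q x ≤ τ := by
  rw [tt, if_neg hx, H.τ_eq]
  have hw : wt h Q x ≤ M ^ r := by
    calc wt h Q x ≤ ∏ _q ∈ Q, M :=
          Finset.prod_le_prod (fun _ _ => H.nonneg _) fun _ _ => H.le _
      _ = M ^ Q.card := by rw [Finset.prod_const]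
      _ ≤ M ^ r := pow_le_pow_right₀ H.one_le hQ
  have hw0 : 0 ≤ wt h Q x := Finset.prod_nonneg fun _ _ => H.nonneg _
  have h1 : om x / 2 ≤ 1 := by have := om_le x; linarith
  have h2 : 0 ≤ om x / 2 := div_nonneg (om_nonneg x) (by norm_num)
  have hθ := H.θ_nonneg
  calc θ * (om x / 2) * wt h Q x ≤ θ * 1 * M ^ r := by
        refine mul_le_mul (mul_le_mul_of_nonneg_left h1 hθ) hw hw0 (by linarith)
    _ = θ * M ^ r := by ring

lemma Good.τ_nonneg : 0 ≤ τ := by
  rw [H.τ_eq]
  exact mul_nonneg H.θ_nonneg (pow_nonneg (le_trans zero_le_one H.one_le) r)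

/-- the strong lower bound for the quadratic form -/
lemma Good.lower {Q : Finset (Fin n → Bool)} (hQ : Q.card ≤ r)
    (g : Option (Fin n → Bool) → ℝ) : - (1 / 2 * RR θ h Q g) ≤ QQ θ h Q g := by
  have huodd : ∀ x, chi Finset.univ x ≠ 1 → uu θ h Q g x = 0 := by
    intro x hx
    have h1 : om x = 0 := by
      rcases chi_eq_or Finset.univ x with h | h
      · exact absurd h hx
      · rw [om, h]; norm_num
    rw [uu]
    split_ifs with h2
    · rfl
    · rw [tt, if_neg h2, h1]; ring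
  have h1 := H.quad (uu θ h Q g) huodd
  have h2 : ε * ∑ x, uu θ h Q g x ^ 2 ≤ 1 / 2 * RR θ h Q g := by
    rw [RR, Finset.mul_sum, Finset.mul_sum]
    refine Finset.sum_le_sum fun x _ => ?_
    rw [uu]
    by_cases hx : x ∈ Q
    · simp [hx]
    · rw [if_neg hx, if_pos hx]
      have h3 := H.tt_nonneg Q x
      have h4 : 0 ≤ g (some x) ^ 2 := sq_nonneg _
      have h5 : tt θ h Q x * ε ≤ 1 / 2 :=
        le_trans (mul_le_mul_of_nonneg_right (H.tt_le hQ hx) H.ε_nonneg) H.small
      calc ε * (tt θ h Q x * g (some x)) ^ 2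
          = (tt θ h Q x * ε) * (tt θ h Q x * g (some x) ^ 2) := by ring
        _ ≤ 1 / 2 * (tt θ h Q x * g (some x) ^ 2) :=
          mul_le_mul_of_nonneg_right h5 (mul_nonneg h3 h4)
  rw [QQ]
  linarith

lemma Good.RR_nonneg (Q : Finset (Fin n → Bool)) (g : Option (Fin n → Bool) → ℝ) :
    0 ≤ RR θ h Q g := by
  refine Finset.sum_nonneg fun x _ => ?_
  by_cases hx : x ∉ Q
  · rw [if_pos hx]
    exact mul_nonneg (H.tt_nonneg Q x) (sq_nonneg _)
  · rw [if_neg hx]

/-- the moments form around `Q` -/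
lemma Good.psd {Q : Finset (Fin n → Bool)} (hQ : Q.card ≤ r)
    (g : Option (Fin n → Bool) → ℝ) :
    0 ≤ ∑ a, ∑ b, g a * g b * pm θ h (Q ∪ (a.toFinset ∪ b.toFinset)) := by
  rw [pm_form H.nonneg H.zero]
  have h1 := H.lower hQ g
  have h2 := H.RR_nonneg Q g
  exact mul_nonneg (H.pm_nonneg Q) (by nlinarith [sq_nonneg (LL θ h Q g)])

end

lemma sum_om (hn : 0 < n) : ∑ x : Fin n → Bool, om x = 2 ^ n := by
  simp only [om]
  rw [Finset.sum_add_distrib, sum_chi, if_neg]
  · simp
  · intro h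
    have := congrArg Finset.card h
    simp at this
    omega

end

end Pool.Agent.H14.KPoint
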