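import Pool.Agent.H14.KPoint.LP

/-!
# Symmetrisation and the spectral bound for the kernel
-/

namespace Pool.Agent.H14.KPoint

open Finset

noncomputable section

variable {n : ℕ}

lemma chi_comp (S : Finset (Fin n)) (σ : Equiv.Perm (Fin n)) (x : Fin n → Bool) :
    chi S (x ∘ σ) = chi (S.map σ.toEmbedding) x := by
  simp [chi]

lemma om_comp (σ : Equiv.Perm (Fin n)) (x : Fin n → Bool) : om (x ∘ σ) = om x := by
  rw [om, om, chi_comp]
  congr 2
  exact Finset.map_univ_equiv σ

lemma sm_comp (σ : Equiv.Perm (Fin n)) (x : Fin n → Bool) : sm (x ∘ σ) = sm x := by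
  simp only [sm, Function.comp]
  exact Equiv.sum_comp σ (fun i => sg (x i))

lemma far_comp (a : ℝ) (σ : Equiv.Perm (Fin n)) (x : Fin n → Bool) :
    far a (x ∘ σ) = far a x := by
  rw [far, far, sm_comp]

/-- precomposition with a permutation, as an equivalence of the cube -/
def permE (σ : Equiv.Perm (Fin n)) : (Fin n → Bool) ≃ (Fin n → Bool) where
  toFun x := x ∘ σ
  invFun x := x ∘ σ.symm
  left_inv x := by funext i; simp
  right_inv x := by funext i; simp

lemma avg_comp (σ : Equiv.Perm (Fin n)) (f : (Fin n → Bool) → ℝ) :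
    avg (fun x => f (x ∘ σ)) = avg f := by
  rw [avg, avg]
  congr 1
  exact (permE σ).sum_comp f

lemma evE_comp (σ : Equiv.Perm (Fin n)) (f : (Fin n → Bool) → ℝ) :
    evE (fun x => f (x ∘ σ)) = evE f := by
  rw [evE, evE, ← avg_comp σ (fun x => f x * om x)]
  simp_rw [om_comp]

/-- The symmetrisation of a function. -/
def symz (h : (Fin n → Bool) → ℝ) (x : Fin n → Bool) : ℝ :=
  (∑ σ : Equiv.Perm (Fin n), h (x ∘ σ)) / (Fintype.card (Equiv.Perm (Fin n)) : ℝ)

lemma symz_comp (h : (Fin n → Bool) → ℝ) (τ : Equiv.Perm (Fin n)) (x : Fin n → Bool) :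
    symz h (x ∘ τ) = symz h x := by
  rw [symz, symz]
  congr 1
  have : ∀ σ : Equiv.Perm (Fin n), h ((x ∘ τ) ∘ σ) = h (x ∘ (τ * σ : Equiv.Perm (Fin n))) := by
    intro σ; rfl
  simp_rw [this]
  exact Equiv.sum_comp (Equiv.mulLeft τ) (fun σ : Equiv.Perm (Fin n) => h (x ∘ σ))

lemma card_perm_pos : (0 : ℝ) < (Fintype.card (Equiv.Perm (Fin n)) : ℝ) := by
  exact_mod_cast Fintype.card_pos

lemma symz_box {a M : ℝ} {h : (Fin n → Bool) → ℝ} (hh : h ∈ (Box a M : Set _)) :
    symz h ∈ (Box a M : Set ((Fin n → Bool) → ℝ)) := by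
  intro x
  have hc := card_perm_pos (n := n)
  constructor
  · exact div_nonneg (Finset.sum_nonneg fun σ _ => (hh _).1) hc.le
  · rw [symz, div_le_iff₀ hc]
    calc ∑ σ : Equiv.Perm (Fin n), h (x ∘ σ)
        ≤ ∑ σ : Equiv.Perm (Fin n), M * (1 - far a x) := by
          refine Finset.sum_le_sum fun σ _ => ?_
          rw [← far_comp a σ x]
          exact (hh _).2
      _ = _ := by
          rw [Finset.sum_const, Finset.card_univ, nsmul_eq_mul]; ring

lemma symz_mom {K : ℕ} {h : (Fin n → Bool) → ℝ}
    (hh : ∀ S : Finset (Fin n), S.card ≤ K → evE (fun x => h x * chi S x) = evE (chi S))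
    (S : Finset (Fin n)) (hS : S.card ≤ K) :
    evE (fun x => symz h x * chi S x) = evE (chi S) := by
  have hc := card_perm_pos (n := n)
  have h1 : (fun x => symz h x * chi S x) =
      fun x => ((Fintype.card (Equiv.Perm (Fin n)) : ℝ))⁻¹ *
        ∑ σ : Equiv.Perm (Fin n), h (x ∘ σ) * chi S x := by
    funext x
    rw [symz, ← Finset.sum_mul]
    field_simp
  rw [h1, evE_mul_left, evE_sum]
  have h2 : ∀ σ : Equiv.Perm (Fin n), evE (fun x => h (x ∘ σ) * chi S x) = evE (chi S) := by
    intro σ
    have e1 : (fun x : Fin n → Bool => h (x ∘ σ) * chi S x) =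
        fun x => (fun y => h y * chi (S.map σ.symm.toEmbedding) y) (x ∘ σ) := by
      funext x
      simp only
      rw [← chi_comp]
      congr 2
      funext i; simp
    rw [e1]
    refine (evE_comp σ (fun y => h y * chi (S.map σ.symm.toEmbedding) y)).trans ?_
    rw [hh _ (by simpa using hS)]
    have e3 : chi (S.map σ.symm.toEmbedding) = fun x : Fin n → Bool =>
        (chi S) (x ∘ σ.symm) := by
      funext x; rw [chi_comp]
    rw [e3]
    exact evE_comp σ.symm (chi S)
  simp_rw [h2]
  rw [Finset.sum_const, Finset.card_univ, nsmul_eq_mul]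
  field_simp

/-- Fourier coefficients of an invariant function depend only on the size of the set. -/
lemma ft_eq_of_card {H : (Fin n → Bool) → ℝ}
    (hH : ∀ (σ : Equiv.Perm (Fin n)) x, H (x ∘ σ) = H x) {S T : Finset (Fin n)}
    (hST : S.card = T.card) : ft H S = ft H T := by
  obtain ⟨σ, hσ⟩ : ∃ σ : Equiv.Perm (Fin n), S.map σ.toEmbedding = T := by
    have e : {x // x ∈ S} ≃ {x // x ∈ T} := Fintype.equivOfCardEq (by simpa using hST)
    refine ⟨e.extendSubtype, ?_⟩
    refine Finset.eq_of_subset_of_card_le ?_ (by simp [hST])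
    intro y hy
    obtain ⟨x, hx, rfl⟩ := Finset.mem_map.1 hy
    exact e.extendSubtype_mem x hx
  rw [← hσ]
  change avg (fun x => H x * chi S x) = avg (fun x => H x * chi (S.map σ.toEmbedding) x)
  rw [← avg_comp σ (fun x => H x * chi S x)]
  congr 1
  funext x
  rw [hH, chi_comp]

lemma choose_mono_half (r s : ℕ) (h1 : r ≤ s) (h2 : 2 * s ≤ n) :
    n.choose r ≤ n.choose s := by
  induction s, h1 using Nat.le_induction with
  | base => exact le_rfl
  | succ s hs ih =>
    exact (ih (by omega)).trans (Nat.choose_le_succ_of_lt_half_left (by omega))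

lemma choose_ge (r s : ℕ) (h1 : r ≤ s) (h2 : s + r ≤ n) : n.choose r ≤ n.choose s := by
  by_cases h : 2 * s ≤ n
  · exact choose_mono_half r s h1 h
  · rw [← Nat.choose_symm (show s ≤ n by omega)]
    exact choose_mono_half r (n - s) (by omega) (by omega)

lemma om_mul_chi (S : Finset (Fin n)) (x : Fin n → Bool) :
    om x * chi S x = om x * chi Sᶜ x := by
  have h1 : chi Sᶜ x * chi S x = chi Finset.univ x := by
    rw [chi, chi, chi]
    exact Finset.prod_compl_mul_prod S _
  have h2 := chi_mul_self S x
  have h3 := chi_mul_self Sᶜ x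
  have h4 : chi Sᶜ x = chi Finset.univ x * chi S x := by
    rw [← h1, mul_assoc, h2, mul_one]
  rw [h4, om]
  have h5 := chi_mul_self Finset.univ x
  linear_combination (- chi S x) * h5

/-- **The kernel.** -/
lemma exists_kernel (K : ℕ) (hK : 4 * K < n) (a η : ℝ) (ha : 0 ≤ a)
    (hη : 2 * 3 ^ K * Real.exp (-(a ^ 2 / (4 * n))) ≤ η) (hη2 : η ≤ 1 / 2) :
    ∃ h : (Fin n → Bool) → ℝ, h ∈ (Box a (1 / (1 - η)) : Set ((Fin n → Bool) → ℝ)) ∧
      ∀ u : (Fin n → Bool) → ℝ, (∀ x, chi Finset.univ x ≠ 1 → u x = 0) →
        -(Real.sqrt (4 / n.choose (K + 1)) / 2 * 2 ^ n * ∑ x, u x ^ 2) ≤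
          ∑ x, ∑ y, u x * u y * (h (xo x y) - 1) := by
  obtain ⟨h0, hh0, hm0⟩ := exists_density K hK a η ha hη hη2
  set M : ℝ := 1 / (1 - η) with hM
  have hη0 : 0 ≤ η := le_trans (by positivity) hη
  have hM0 : 0 < M := by
    have : 0 < 1 - η := by linarith
    positivity
  have hM2 : M ≤ 2 := by
    rw [hM, div_le_iff₀ (by linarith)]
    linarith
  set h := symz h0 with hh
  have hbox : h ∈ (Box a M : Set ((Fin n → Bool) → ℝ)) := symz_box hh0
  have hmom : ∀ S : Finset (Fin n), S.card ≤ K →
      evE (fun x => h x * chi S x) = evE (chi S) := fun S hS => symz_mom hm0 S hS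
  refine ⟨h, hbox, ?_⟩
  set ε : ℝ := Real.sqrt (4 / n.choose (K + 1)) with hε
  have hε0 : 0 ≤ ε := Real.sqrt_nonneg _
  set H : (Fin n → Bool) → ℝ := fun x => h x * om x with hH
  set κ : (Fin n → Bool) → ℝ := fun x => H x - om x with hκ
  have hHinv : ∀ (σ : Equiv.Perm (Fin n)) x, H (x ∘ σ) = H x := by
    intro σ x
    rw [hH]
    simp only
    rw [om_comp, hh, symz_comp]
  -- low degree coefficients of κ vanish
  have hlow : ∀ S : Finset (Fin n), S.card ≤ K → ft κ S = 0 := by
    intro S hS
    have h1 : ft κ S = evE (fun x => h x * chi S x) - evE (chi S) := by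
      rw [← evE_sub]
      change avg (fun x => κ x * chi S x) = avg _
      congr 1
      funext x
      rw [hκ, hH]
      simp only
      ring
    rw [h1, hmom S hS, sub_self]
  have hcompl : ∀ S : Finset (Fin n), ft κ S = ft κ Sᶜ := by
    intro S
    change avg (fun x => κ x * chi S x) = avg (fun x => κ x * chi Sᶜ x)
    congr 1
    funext x
    have := om_mul_chi S x
    rw [hκ, hH]
    simp only
    linear_combination (h x - 1) * this
  -- the other coefficients are small
  have hmid : ∀ S : Finset (Fin n), -ε ≤ ft κ S := by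
    intro S
    by_cases hS : S.card ≤ K
    · rw [hlow S hS]; linarith
    by_cases hS' : Sᶜ.card ≤ K
    · rw [hcompl, hlow _ hS']; linarith
    · have hcs : Sᶜ.card = n - S.card := by
        rw [Finset.card_compl, Fintype.card_fin]
      have hSn : S.card ≤ n := by simpa using Finset.card_le_univ S
      have h1 : ft κ S = ft H S := by
        have : ft om S = 0 := by
          have e : (om : (Fin n → Bool) → ℝ) = fun x => chi ∅ x + chi Finset.univ x := by
            funext x; rw [om, chi_empty]
          rw [ft, e]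
          have e2 : ∀ x : Fin n → Bool, (chi ∅ x + chi Finset.univ x) * chi S x =
              chi ∅ x * chi S x + chi Finset.univ x * chi S x := by intro x; ring
          simp_rw [e2]
          rw [Finset.sum_add_distrib, sum_chi_mul, sum_chi_mul, if_neg, if_neg]
          · simp
          · rintro rfl
            simp at hS'
          · rintro rfl
            simp at hS
        have e3 : ft κ S = ft H S - ft om S := by
          rw [ft, ft, ft, ← sub_div, ← Finset.sum_sub_distrib]
          congr 1
          refine Finset.sum_congr rfl fun x _ => ?_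
          rw [hκ]; ring
        rw [e3, this, sub_zero]
      have h2 : (n.choose S.card : ℝ) * ft H S ^ 2 ≤ 4 := by
        have e1 : (n.choose S.card : ℝ) * ft H S ^ 2 =
            ∑ T ∈ Finset.powersetCard S.card (Finset.univ : Finset (Fin n)), ft H T ^ 2 := by
          rw [Finset.sum_congr rfl (g := fun _ => ft H S ^ 2)]
          · rw [Finset.sum_const, Finset.card_powersetCard, Finset.card_univ, Fintype.card_fin,
              nsmul_eq_mul]
          · intro T hT
            rw [ft_eq_of_card hHinv (Finset.mem_powersetCard.1 hT).2]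
        rw [e1]
        calc ∑ T ∈ Finset.powersetCard S.card (Finset.univ : Finset (Fin n)), ft H T ^ 2
            ≤ ∑ T, ft H T ^ 2 :=
              Finset.sum_le_sum_of_subset_of_nonneg (Finset.subset_univ _)
                fun _ _ _ => sq_nonneg _
          _ = avg (fun x => H x ^ 2) := parseval H
          _ ≤ avg (fun x => (2 * M) * ((h x * chi ∅ x) * om x)) := by
              refine div_le_div_of_nonneg_right (Finset.sum_le_sum fun x _ => ?_) (by positivity)
              rw [hH]
              simp only
              have b1 := (hbox x).1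
              have b2 := (hbox x).2
              have b3 := far_nonneg a x
              have b4 : h x ≤ M := by nlinarith
              have b5 := om_nonneg x
              have b6 := om_sq x
              rw [mul_pow, b6, chi_empty]
              nlinarith [mul_nonneg b1 b5, mul_le_mul_of_nonneg_left b4 (mul_nonneg b1 b5)]
          _ = 2 * M * evE (fun x => h x * chi ∅ x) := by rw [avg_mul_left]; rfl
          _ = 2 * M * 1 := by
              rw [hmom ∅ (by simp)]
              congr 1
              rw [evE_eq]
              have hn : 0 < n := by omega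
              have e1 : avg (chi (n := n) ∅) = 1 := by
                rw [avg, sum_chi, if_pos rfl, div_self two_pow_ne]
              have e2 : ft (chi (n := n) ∅) Finset.univ = 0 := by
                rw [ft, sum_chi_mul, if_neg, zero_div]
                intro h
                have := congrArg Finset.card h
                simp at this
                omega
              rw [e1, e2, add_zero]
          _ ≤ 4 := by linarith
      have h3 : (n.choose (K + 1) : ℝ) ≤ n.choose S.card := by
        exact_mod_cast choose_ge (K + 1) S.card (by omega) (by omega)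
      have h4 : (0 : ℝ) < n.choose (K + 1) := by
        exact_mod_cast Nat.choose_pos (by omega)
      have h5 : ft κ S ^ 2 ≤ ε ^ 2 := by
        rw [h1, hε, Real.sq_sqrt (by positivity), le_div_iff₀ h4]
        nlinarith [mul_le_mul_of_nonneg_right h3 (sq_nonneg (ft H S))]
      exact (abs_le_of_sq_le_sq' h5 hε0).1
  intro u hu
  have hq := quad_lower κ u ε hmid
  have hrel : ∑ x, ∑ y, u x * u y * κ (xo x y) =
      2 * ∑ x, ∑ y, u x * u y * (h (xo x y) - 1) := by
    rw [Finset.mul_sum]
    refine Finset.sum_congr rfl fun x _ => ?_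
    rw [Finset.mul_sum]
    refine Finset.sum_congr rfl fun y _ => ?_
    by_cases hx : chi Finset.univ x = 1
    · by_cases hy : chi Finset.univ y = 1
      · have : om (xo x y) = 2 := by
          rw [om, chi_xo, hx, hy]; norm_num
        rw [hκ, hH]
        simp only
        rw [this]; ring
      · rw [hu y hy]; ring
    · rw [hu x hx]; ring
  rw [hrel] at hq
  linarith

end

end Pool.Agent.H14.KPoint
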